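import Mathlib

/-!
# The parameters of the weights (MP_39b2af_an)
-/

set_option autoImplicit false

namespace Pool.Agent.R82.DC

open Filter Topology

/-- the numbers `M_n = 2 ^ m_n`, `z_n = 2 ^ a_n`, `W_n` of the construction -/
structure Dat (lam : ℝ) where
  /-- exponents of `z` -/
  a : ℕ → ℕ
  /-- exponents of `M` -/
  m : ℕ → ℕ
  a0 : a 0 = 0
  amono : ∀ n, a n < a (n + 1)
  P1 : ∀ n, 2 * 2 ^ m n * 2 ^ a n ≤ 2 ^ a (n + 1)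
  P3 : ∀ n : ℕ, ((n : ℝ) + 1) * 2 ^ a n ≤ ((2 : ℝ) ^ m n) ^ lam
  P4 : ∀ n : ℕ, Real.exp (1 + 6 * n * a n) ≤ 2 ^ m n
  P5 : ∀ n : ℕ, ((2 : ℝ) ^ a (n + 1)) ^ (lam * (1 - 1 / ((n : ℝ) + 2))) ≤ 2 * 2 ^ m n
  P6 : ∀ n : ℕ, ((n : ℝ) + 1) * (2 * (2 ^ (n + 2) * (6 * a (n + 1)) * 2 ^ m n * 2 ^ a n)) ≤
    ((2 : ℝ) ^ a (n + 1)) ^ lam

theorem step (lam : ℝ) (h0 : 0 < lam) (h1 : lam ≤ 1) (n A : ℕ) : ∃ a m : ℕ, A < a ∧
    2 * 2 ^ m * 2 ^ A ≤ 2 ^ a ∧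
    ((n : ℝ) + 1) * 2 ^ A ≤ ((2 : ℝ) ^ m) ^ lam ∧
    Real.exp (1 + 6 * n * A) ≤ 2 ^ m ∧
    ((2 : ℝ) ^ a) ^ (lam * (1 - 1 / ((n : ℝ) + 2))) ≤ 2 * 2 ^ m ∧
    ((n : ℝ) + 1) * (2 * (2 ^ (n + 2) * (6 * a) * 2 ^ m * 2 ^ A)) ≤ ((2 : ℝ) ^ a) ^ lam := by
  set c : ℝ := lam * (1 - 1 / ((n : ℝ) + 2)) with hc
  have hn2 : (0 : ℝ) < (n : ℝ) + 2 := by positivity
  have hn1 : 1 / ((n : ℝ) + 2) ≤ 1 / 2 := by
    apply one_div_le_one_div_of_le (by norm_num)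
    have : (0 : ℝ) ≤ n := Nat.cast_nonneg n
    linarith
  have hc0 : 0 < c := mul_pos h0 (by linarith)
  have hcd : lam - c = lam / ((n : ℝ) + 2) := by
    rw [hc]
    field_simp
    ring
  have hcl : 0 < lam - c := by rw [hcd]; positivity
  have hc1 : 0 < 1 - c := by linarith
  have hm : Tendsto (fun a : ℕ => ⌊c * a⌋₊) atTop atTop :=
    tendsto_nat_floor_atTop.comp (tendsto_natCast_atTop_atTop.const_mul_atTop hc0)
  -- the eventual inequalities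
  have e1 : ∀ᶠ a : ℕ in atTop, A < a := eventually_gt_atTop A
  have e2 : ∀ᶠ a : ℕ in atTop, (A + 1 : ℝ) ≤ (1 - c) * a :=
    (tendsto_natCast_atTop_atTop.const_mul_atTop hc1).eventually_ge_atTop _
  have e3 : ∀ᶠ a : ℕ in atTop, ((n : ℝ) + 1) * 2 ^ A ≤ ((2 : ℝ) ^ ⌊c * a⌋₊) ^ lam := by
    have h2 : Tendsto (fun k : ℕ => ((2 : ℝ) ^ k) ^ lam) atTop atTop :=
      (tendsto_rpow_atTop h0).comp (tendsto_pow_atTop_atTop_of_one_lt (by norm_num))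
    exact (h2.comp hm).eventually_ge_atTop _
  have e4 : ∀ᶠ a : ℕ in atTop, Real.exp (1 + 6 * n * A) ≤ 2 ^ ⌊c * a⌋₊ := by
    have h2 : Tendsto (fun k : ℕ => (2 : ℝ) ^ k) atTop atTop :=
      tendsto_pow_atTop_atTop_of_one_lt (by norm_num)
    exact (h2.comp hm).eventually_ge_atTop _
  have e6 : ∀ᶠ a : ℕ in atTop, ((n : ℝ) + 1) * 2 * 2 ^ (n + 2) * 6 * 2 ^ A * a ≤
      ((2 : ℝ) ^ (lam - c)) ^ a := by
    set r : ℝ := (2 : ℝ) ^ (lam - c) with hr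
    have hr1 : 1 < r := Real.one_lt_rpow (by norm_num) hcl
    have h2 := tendsto_pow_const_div_const_pow_of_one_lt 1 hr1
    set K : ℝ := ((n : ℝ) + 1) * 2 * 2 ^ (n + 2) * 6 * 2 ^ A with hK
    have hK0 : 0 < K := by positivity
    have h3 := h2.eventually (gt_mem_nhds (show (0 : ℝ) < 1 / K by positivity))
    filter_upwards [h3] with a ha
    rw [pow_one, div_lt_div_iff₀ (by positivity) hK0, one_mul] at ha
    linarith
  obtain ⟨a, ha1, ha2, ha3, ha4, ha6⟩ := (e1.and (e2.and (e3.and (e4.and e6)))).exists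
  have hfl : (⌊c * a⌋₊ : ℝ) ≤ c * a := Nat.floor_le (by positivity)
  have hfl' : c * a < ⌊c * a⌋₊ + 1 := Nat.lt_floor_add_one _
  refine ⟨a, ⌊c * a⌋₊, ha1, ?_, ha3, ha4, ?_, ?_⟩
  · have : ⌊c * a⌋₊ + A + 1 ≤ a := by
      have : ((⌊c * a⌋₊ + A + 1 : ℕ) : ℝ) ≤ a := by
        push_cast
        linarith
      exact_mod_cast this
    calc 2 * 2 ^ ⌊c * a⌋₊ * 2 ^ A = 2 ^ (⌊c * a⌋₊ + A + 1) := by ring
      _ ≤ 2 ^ a := Nat.pow_le_pow_right (by norm_num) this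
  · rw [← Real.rpow_natCast 2 a, ← Real.rpow_mul (by norm_num)]
    have : (2 : ℝ) * 2 ^ ⌊c * a⌋₊ = 2 ^ ((⌊c * a⌋₊ : ℝ) + 1) := by
      rw [Real.rpow_add (by norm_num), Real.rpow_natCast, Real.rpow_one, mul_comm]
    rw [this]
    apply Real.rpow_le_rpow_of_exponent_le (by norm_num)
    rw [mul_comm]
    exact hfl'.le
  · have h2 : (2 : ℝ) ^ ⌊c * a⌋₊ ≤ ((2 : ℝ) ^ a) ^ c := by
      rw [← Real.rpow_natCast 2 a, ← Real.rpow_mul (by norm_num), ← Real.rpow_natCast]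
      apply Real.rpow_le_rpow_of_exponent_le (by norm_num)
      rw [mul_comm (a : ℝ) c]
      exact hfl
    have h3 : ((2 : ℝ) ^ a) ^ lam = ((2 : ℝ) ^ (lam - c)) ^ a * ((2 : ℝ) ^ a) ^ c := by
      rw [← Real.rpow_natCast 2 a, ← Real.rpow_mul (by norm_num), ← Real.rpow_mul (by norm_num),
        ← Real.rpow_natCast, ← Real.rpow_mul (by norm_num), ← Real.rpow_add (by norm_num)]
      congr 1
      ring
    rw [h3]
    calc ((n : ℝ) + 1) * (2 * (2 ^ (n + 2) * (6 * a) * 2 ^ ⌊c * a⌋₊ * 2 ^ A))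
        = (((n : ℝ) + 1) * 2 * 2 ^ (n + 2) * 6 * 2 ^ A * a) * 2 ^ ⌊c * a⌋₊ := by ring
      _ ≤ ((2 : ℝ) ^ (lam - c)) ^ a * ((2 : ℝ) ^ a) ^ c :=
          mul_le_mul ha6 h2 (by positivity) (by positivity)

theorem exists_dat (lam : ℝ) (h0 : 0 < lam) (h1 : lam ≤ 1) : Nonempty (Dat lam) := by
  choose fa fm hf using step lam h0 h1
  let a : ℕ → ℕ := fun n => Nat.rec 0 (fun k A => fa k A) n
  have ha : ∀ n, a (n + 1) = fa n (a n) := fun n => rfl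
  refine ⟨{ a := a, m := fun n => fm n (a n), a0 := rfl, amono := ?_, P1 := ?_, P3 := ?_,
            P4 := ?_, P5 := ?_, P6 := ?_ }⟩
  · intro n; rw [ha]; exact (hf n (a n)).1
  · intro n; rw [ha]; exact (hf n (a n)).2.1
  · intro n; exact (hf n (a n)).2.2.1
  · intro n; exact (hf n (a n)).2.2.2.1
  · intro n; rw [ha]; exact (hf n (a n)).2.2.2.2.1
  · intro n; rw [ha]; exact (hf n (a n)).2.2.2.2.2

end Pool.Agent.R82.DC
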