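import Pool.Agent.R82.DC.Fun

/-!
# Densities (MP_39b2af_an)
-/

set_option autoImplicit false

namespace Pool.Agent.R82.DC

open Filter Topology
open scoped ENNReal

/-- the number of the elements of `A` in `[1, R]` -/
noncomputable def cnt (A : Set ℕ) (R : ℝ) : ℕ := {j : ℕ | j ∈ A ∧ 1 ≤ j ∧ (j : ℝ) ≤ R}.ncard

/-- the lower `q`-density `liminf |A ∩ [1, n ^ q]| / n` -/
noncomputable def ldens (q : ℝ) (A : Set ℕ) : ℝ≥0∞ :=
  liminf (fun n : ℕ => (cnt A ((n : ℝ) ^ q) : ℝ≥0∞) / n) atTop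

theorem cnt_finite (A : Set ℕ) (R : ℝ) : {j : ℕ | j ∈ A ∧ 1 ≤ j ∧ (j : ℝ) ≤ R}.Finite := by
  refine (Set.finite_Iic ⌊R⌋₊).subset ?_
  rintro j ⟨-, h1, h2⟩
  exact Nat.le_floor h2

theorem cnt_mono_R (A : Set ℕ) {R R' : ℝ} (h : R ≤ R') : cnt A R ≤ cnt A R' :=
  Set.ncard_le_ncard (fun _ hj => ⟨hj.1, hj.2.1, hj.2.2.trans h⟩) (cnt_finite _ _)

theorem cnt_mono {A B : Set ℕ} (h : A ⊆ B) (R : ℝ) : cnt A R ≤ cnt B R :=
  Set.ncard_le_ncard (fun _ hj => ⟨h hj.1, hj.2⟩) (cnt_finite _ _)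

theorem cnt_union (A B : Set ℕ) (R : ℝ) : cnt (A ∪ B) R ≤ cnt A R + cnt B R := by
  unfold cnt
  refine le_trans (Set.ncard_le_ncard ?_ ((cnt_finite A R).union (cnt_finite B R)))
    (Set.ncard_union_le _ _)
  rintro j ⟨h1 | h1, h2⟩
  · exact Or.inl ⟨h1, h2⟩
  · exact Or.inr ⟨h1, h2⟩

theorem cnt_lt (J : ℕ) (R : ℝ) : cnt {j | j < J} R ≤ J := by
  unfold cnt
  refine (Set.ncard_le_ncard (t := ((Finset.range J : Finset ℕ) : Set ℕ)) ?_
    (Finset.finite_toSet _)).trans ?_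
  · rintro j ⟨h1, -⟩
    simpa using h1
  · rw [Set.ncard_coe_finset, Finset.card_range]

theorem ldens_eq_zero (q : ℝ) (A : Set ℕ)
    (h : ∀ c N : ℕ, ∃ n, N ≤ n ∧ 0 < n ∧ (c : ℝ) * cnt A ((n : ℝ) ^ q) ≤ n) :
    ldens q A = 0 := by
  have h1 : ∀ c : ℕ, ldens q A ≤ ((c : ℝ≥0∞) + 1)⁻¹ := by
    intro c
    unfold ldens
    refine liminf_le_of_frequently_le' ?_
    rw [frequently_atTop]
    intro N
    obtain ⟨n, hn, hn0, hc⟩ := h (c + 1) N
    refine ⟨n, hn, ?_⟩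
    have hc' : (c + 1) * cnt A ((n : ℝ) ^ q) ≤ n := by exact_mod_cast hc
    have hn0' : (n : ℝ≥0∞) ≠ 0 := by exact_mod_cast hn0.ne'
    rw [ENNReal.div_le_iff hn0' (ENNReal.natCast_ne_top n)]
    have h2 : ((c : ℝ≥0∞) + 1) ≠ 0 := by simp
    have h3 : ((c : ℝ≥0∞) + 1) ≠ ⊤ := by finiteness
    calc (cnt A ((n : ℝ) ^ q) : ℝ≥0∞)
        = ((c : ℝ≥0∞) + 1)⁻¹ * (((c : ℝ≥0∞) + 1) * cnt A ((n : ℝ) ^ q)) := by
          rw [← mul_assoc, ENNReal.inv_mul_cancel h2 h3, one_mul]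
      _ ≤ ((c : ℝ≥0∞) + 1)⁻¹ * n := by
          apply mul_le_mul_right
          exact_mod_cast hc'
  refine le_antisymm ?_ zero_le
  refine ge_of_tendsto' (f := fun c : ℕ => ((c : ℝ≥0∞) + 1)⁻¹) (x := atTop) ?_ h1
  have := ENNReal.tendsto_inv_nat_nhds_zero
  have h2 := (tendsto_add_atTop_iff_nat 1).2 this
  simpa using h2

theorem ldens_ne_zero (q : ℝ) (A : Set ℕ) (c : ℕ) (hc : 0 < c)
    (h : ∀ᶠ n : ℕ in atTop, (n : ℝ) ≤ c * cnt A ((n : ℝ) ^ q)) : ldens q A ≠ 0 := by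
  have h1 : (c : ℝ≥0∞)⁻¹ ≤ ldens q A := by
    unfold ldens
    refine le_liminf_of_le (by isBoundedDefault) ?_
    filter_upwards [h, eventually_gt_atTop 0] with n hn hn0
    have hn' : n ≤ c * cnt A ((n : ℝ) ^ q) := by exact_mod_cast hn
    rw [ENNReal.le_div_iff_mul_le (Or.inl (by exact_mod_cast hn0.ne'))
      (Or.inl (ENNReal.natCast_ne_top n))]
    rw [ENNReal.inv_mul_le_iff (by exact_mod_cast hc.ne') (ENNReal.natCast_ne_top c)]
    exact_mod_cast hn'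
  intro h0
  rw [h0] at h1
  have := le_antisymm h1 zero_le
  rw [ENNReal.inv_eq_zero] at this
  exact ENNReal.natCast_ne_top c this

theorem ldens_zero_of (lam : ℝ) (h0 : 0 < lam) (A : Set ℕ) (R : ℕ → ℝ)
    (hR : Tendsto R atTop atTop)
    (h : ∀ c : ℕ, ∀ᶠ n in atTop, (c : ℝ) * cnt A (R n) ≤ (R n) ^ lam) :
    ldens (1 / lam) A = 0 := by
  refine ldens_eq_zero _ _ fun c N => ?_
  have h1 := h (2 * c)
  have h2 : Tendsto (fun n => (R n) ^ lam) atTop atTop := (tendsto_rpow_atTop h0).comp hR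
  have h3 := h2.eventually_ge_atTop (2 * N + 2)
  have h4 := hR.eventually_ge_atTop 0
  obtain ⟨k, hk1, hk2, hk3⟩ := (h1.and (h3.and h4)).exists
  set n' := ⌊(R k) ^ lam⌋₊ with hn'
  have e1 : (R k) ^ lam < n' + 1 := Nat.lt_floor_add_one _
  have e2 : (n' : ℝ) ≤ (R k) ^ lam := Nat.floor_le (by
    have : (0 : ℝ) ≤ N := Nat.cast_nonneg N
    linarith)
  have e3 : (N : ℝ) < n' := by
    have : (0 : ℝ) ≤ N := Nat.cast_nonneg N
    linarith
  have e4 : N < n' := by exact_mod_cast e3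
  refine ⟨n', e4.le, by omega, ?_⟩
  have e5 : (n' : ℝ) ^ (1 / lam) ≤ R k := by
    calc (n' : ℝ) ^ (1 / lam) ≤ ((R k) ^ lam) ^ (1 / lam) :=
          Real.rpow_le_rpow (Nat.cast_nonneg _) e2 (by positivity)
      _ = R k := by rw [← Real.rpow_mul hk3, mul_one_div_cancel h0.ne', Real.rpow_one]
  have e6 : (cnt A ((n' : ℝ) ^ (1 / lam)) : ℝ) ≤ cnt A (R k) := by
    exact_mod_cast cnt_mono_R A e5
  have e7 : (c : ℝ) * cnt A ((n' : ℝ) ^ (1 / lam)) ≤ c * cnt A (R k) :=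
    mul_le_mul_of_nonneg_left e6 (Nat.cast_nonneg _)
  push_cast at hk1
  have : (0 : ℝ) ≤ N := Nat.cast_nonneg N
  linarith

namespace Dat

variable {lam : ℝ} (D : Dat lam)

theorem z_tendsto : Tendsto (fun n => (D.z n : ℝ)) atTop atTop := by
  have h : StrictMono D.z := strictMono_nat_of_lt_succ D.z_lt
  exact tendsto_natCast_atTop_atTop.comp h.tendsto_atTop

theorem M_tendsto (_h0 : 0 < lam) : Tendsto (fun n => (D.M n : ℝ)) atTop atTop := by
  have h1 : Tendsto (fun n : ℕ => (n : ℝ)) atTop atTop := tendsto_natCast_atTop_atTop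
  refine tendsto_atTop_mono (fun n => ?_) h1
  have h2 := D.P4 n
  have h3 : (D.M n : ℝ) = 2 ^ D.m n := by unfold M; push_cast; rfl
  rw [h3]
  refine le_trans ?_ h2
  have h4 : (n : ℝ) ≤ 1 + 6 * n * D.a n := by
    rcases Nat.eq_zero_or_pos n with rfl | hn
    · simp
    · obtain ⟨k, rfl⟩ : ∃ k, n = k + 1 := ⟨n - 1, by omega⟩
      have h5 : (1 : ℝ) ≤ D.a (k + 1) := by exact_mod_cast D.a_pos k
      have h6 : (0 : ℝ) ≤ ((k + 1 : ℕ) : ℝ) := Nat.cast_nonneg _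
      nlinarith
  have h5 := Real.add_one_le_exp (1 + 6 * (n : ℝ) * D.a n)
  linarith

/-- the set where `L` is small -/
def GG : Set ℕ := {j | D.L j ≤ 1}

theorem large (h0 : 0 < lam) (J : ℕ) : ldens (1 / lam) (D.SSᶜ ∪ {j | j < J}) = 0 := by
  have hR : Tendsto (fun n => (D.z (n + 1) : ℝ)) atTop atTop :=
    (tendsto_add_atTop_iff_nat 1).2 D.z_tendsto
  refine ldens_zero_of lam h0 _ _ hR fun c => ?_
  have h1 : Tendsto (fun n => (D.z (n + 1) : ℝ) ^ lam) atTop atTop :=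
    (tendsto_rpow_atTop h0).comp hR
  filter_upwards [h1.eventually_ge_atTop (2 * c * J), eventually_ge_atTop (2 * c)] with n hn1 hn2
  have h2 : cnt (D.SSᶜ ∪ {j | j < J}) (D.z (n + 1)) ≤ 2 * D.W n + J := by
    refine (cnt_union _ _ _).trans (add_le_add ?_ (cnt_lt _ _))
    refine le_trans (le_of_eq ?_) (D.SS_compl_card n)
    unfold cnt
    congr 1
    ext k
    simp
  have h3 : (cnt (D.SSᶜ ∪ {j | j < J}) (D.z (n + 1)) : ℝ) ≤ 2 * D.W n + J := by exact_mod_cast h2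
  have h4 := D.P6 n
  have h5 : (2 * (D.W n : ℝ)) = 2 * (2 ^ (n + 2) * (6 * D.a (n + 1)) * 2 ^ D.m n * 2 ^ D.a n) := by
    unfold W M z
    push_cast
    ring
  have h6 : (D.z (n + 1) : ℝ) = 2 ^ D.a (n + 1) := by unfold z; push_cast; rfl
  rw [← h5, ← h6] at h4
  have hc0 : (0 : ℝ) ≤ c := Nat.cast_nonneg c
  have h7 : (c : ℝ) * cnt (D.SSᶜ ∪ {j | j < J}) (D.z (n + 1)) ≤ c * (2 * D.W n + J) :=
    mul_le_mul_of_nonneg_left h3 hc0
  have h8 : (2 * c : ℝ) ≤ n := by exact_mod_cast hn2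
  have h9 : (0 : ℝ) ≤ 2 * D.W n := by positivity
  have h10 : 2 * (c : ℝ) * (2 * D.W n) ≤ (n + 1) * (2 * D.W n) :=
    mul_le_mul_of_nonneg_right (by linarith) h9
  nlinarith

theorem small (h0 : 0 < lam) (A : Set ℕ)
    (hA : ∀ᶠ n in atTop, ∀ j ∈ A, j ≤ D.M n * D.z n → j ≤ D.z n) :
    ldens (1 / lam) A = 0 := by
  have hR : Tendsto (fun n => ((D.M n * D.z n : ℕ) : ℝ)) atTop atTop := by
    refine tendsto_atTop_mono (fun n => ?_) (D.M_tendsto h0)
    exact_mod_cast Nat.le_mul_of_pos_right _ (D.z_pos n)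
  refine ldens_zero_of lam h0 _ _ hR fun c => ?_
  filter_upwards [hA, eventually_ge_atTop c] with n hn hc
  have h1 : cnt A ((D.M n * D.z n : ℕ) : ℝ) ≤ D.z n := by
    unfold cnt
    refine (Set.ncard_le_ncard (t := ((Finset.Icc 1 (D.z n) : Finset ℕ) : Set ℕ)) ?_
      (Finset.finite_toSet _)).trans ?_
    · rintro j ⟨h1, h2, h3⟩
      rw [Finset.coe_Icc]
      exact ⟨h2, hn j h1 (by exact_mod_cast h3)⟩
    · rw [Set.ncard_coe_finset, Nat.card_Icc]
      omega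
  have h2 : (cnt A ((D.M n * D.z n : ℕ) : ℝ) : ℝ) ≤ D.z n := by exact_mod_cast h1
  have h3 := D.P3 n
  have h4 : (D.z n : ℝ) = 2 ^ D.a n := by unfold z; push_cast; rfl
  have h5 : (D.M n : ℝ) = 2 ^ D.m n := by unfold M; push_cast; rfl
  rw [← h4, ← h5] at h3
  have h6 : (c : ℝ) ≤ n := by exact_mod_cast hc
  have h7 := D.zR_pos n
  calc (c : ℝ) * cnt A ((D.M n * D.z n : ℕ) : ℝ) ≤ (n + 1) * D.z n := by
        apply mul_le_mul (by linarith) h2 (Nat.cast_nonneg _) (by positivity)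
    _ ≤ (D.M n : ℝ) ^ lam := h3
    _ ≤ ((D.M n * D.z n : ℕ) : ℝ) ^ lam := by
        apply Real.rpow_le_rpow (D.MR_pos n).le _ h0.le
        exact_mod_cast Nat.le_mul_of_pos_right _ (D.z_pos n)

theorem exists_n (n0 N : ℕ) (h : D.z n0 ≤ N) : ∃ n, n0 ≤ n ∧ D.z n ≤ N ∧ N < D.z (n + 1) := by
  have h1 : ∃ n, N < D.z (n + 1) := by
    have := (D.z_tendsto.eventually_gt_atTop (N : ℝ)).exists
    obtain ⟨n, hn⟩ := this
    exact ⟨n, lt_of_lt_of_le (by exact_mod_cast hn) (D.z_mono (Nat.le_succ n))⟩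
  classical
  set n := Nat.find h1 with hn
  have h2 := Nat.find_spec h1
  rw [← hn] at h2
  have h3 : n0 ≤ n := by
    by_contra hc
    push Not at hc
    have : D.z (n + 1) ≤ D.z n0 := D.z_mono hc
    omega
  refine ⟨n, h3, ?_, h2⟩
  rcases Nat.eq_zero_or_pos n with h4 | h4
  · have : n0 = n := by omega
    rw [← this]; exact h
  · have h5 := Nat.find_min h1 (m := n - 1) (by omega)
    have h6 : n - 1 + 1 = n := by omega
    rw [h6] at h5
    omega

theorem M_ge (mu : ℝ) (_h0 : 0 < lam) (h1 : mu < lam) :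
    ∀ᶠ n in atTop, (D.z (n + 1) : ℝ) ^ mu ≤ D.M n := by
  have hR : Tendsto (fun n => (D.z (n + 1) : ℝ)) atTop atTop :=
    (tendsto_add_atTop_iff_nat 1).2 D.z_tendsto
  set eta := (lam - mu) / 2 with heta
  have he : 0 < eta := by rw [heta]; linarith
  have h2 : Tendsto (fun n => (D.z (n + 1) : ℝ) ^ eta) atTop atTop :=
    (tendsto_rpow_atTop he).comp hR
  have h3 : Tendsto (fun n : ℕ => lam * (1 - 1 / ((n : ℝ) + 2))) atTop (𝓝 (lam * (1 - 0))) := by
    refine Tendsto.const_mul _ (Tendsto.const_sub _ ?_)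
    have h4 : Tendsto (fun n : ℕ => ((n : ℝ) + 2)) atTop atTop :=
      tendsto_atTop_add_const_right _ _ tendsto_natCast_atTop_atTop
    exact h4.const_div_atTop 1
  have h4 : ∀ᶠ n : ℕ in atTop, mu + eta < lam * (1 - 1 / ((n : ℝ) + 2)) := by
    apply h3.eventually (lt_mem_nhds _)
    rw [heta]; linarith
  filter_upwards [h2.eventually_ge_atTop 2, h4] with n hn1 hn2
  have h5 := D.P5 n
  have h6 : (D.z (n + 1) : ℝ) = 2 ^ D.a (n + 1) := by unfold z; push_cast; rfl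
  have h7 : (D.M n : ℝ) = 2 ^ D.m n := by unfold M; push_cast; rfl
  rw [← h6, ← h7] at h5
  have hz1 : (1 : ℝ) ≤ D.z (n + 1) := by exact_mod_cast D.z_pos (n + 1)
  have hz0 : (0 : ℝ) < D.z (n + 1) := by linarith
  have h8 : (D.z (n + 1) : ℝ) ^ (mu + eta) ≤ 2 * D.M n :=
    (Real.rpow_le_rpow_of_exponent_le hz1 hn2.le).trans h5
  rw [Real.rpow_add hz0] at h8
  have h9 : (0 : ℝ) < (D.z (n + 1) : ℝ) ^ mu := Real.rpow_pos_of_pos hz0 _
  nlinarith

theorem cnt_GG (mu : ℝ) (h0 : 0 < lam) (hm0 : 0 < mu) (hm1 : mu < lam) (hl : lam ≤ 1) :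
    ∃ R0 : ℝ, ∀ R, R0 ≤ R → R ^ mu / 4 - 1 ≤ cnt D.GG R := by
  obtain ⟨n0, hn0⟩ := eventually_atTop.1 (D.M_ge mu h0 hm1)
  refine ⟨D.z (n0 + 1), fun R hR => ?_⟩
  set N := ⌊R⌋₊ with hN
  have hz1 : (1 : ℝ) ≤ D.z (n0 + 1) := by exact_mod_cast D.z_pos (n0 + 1)
  have hR1 : 1 ≤ R := hz1.trans hR
  have hR0 : 0 ≤ R := by linarith
  have hNR : (N : ℝ) ≤ R := Nat.floor_le hR0
  have hRN : R < N + 1 := Nat.lt_floor_add_one _
  have hNz : D.z (n0 + 1) ≤ N := Nat.le_floor hR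
  have hN1 : 1 ≤ N := le_trans (D.z_pos _) hNz
  have hN1' : (1 : ℝ) ≤ N := by exact_mod_cast hN1
  obtain ⟨n', hn1, hn2, hn3⟩ := D.exists_n (n0 + 1) N hNz
  obtain ⟨n, rfl⟩ : ∃ n, n' = n + 1 := ⟨n' - 1, by omega⟩
  have hn : n0 ≤ n := by omega
  rcases le_or_gt N (D.M (n + 1) * D.z (n + 1)) with hcase | hcase
  · set q := N / D.z (n + 1) with hq
    have hzp := D.z_pos (n + 1)
    have hq1 : 1 ≤ q := (Nat.one_le_div_iff hzp).2 hn2
    have hqN : q * D.z (n + 1) ≤ N := Nat.div_mul_le_self _ _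
    have hqN' : N < (q + 1) * D.z (n + 1) := by
      have := Nat.lt_div_mul_add (a := N) hzp
      rw [← hq] at this
      linarith
    have hqM : q ≤ D.M (n + 1) := by
      have : q * D.z (n + 1) ≤ D.M (n + 1) * D.z (n + 1) := hqN.trans hcase
      exact Nat.le_of_mul_le_mul_right this hzp
    have hMz : D.M n * D.z n < D.z (n + 1) := by
      have h1 := D.Mz_le n
      have h2 := Nat.mul_pos (D.M_pos n) (D.z_pos n)
      omega
    have hzn := D.z_pos n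
    let F : ℕ × ℕ → ℕ := fun p => p.1 * D.z (n + 1) + p.2 * D.z n
    have hinj : Set.InjOn F (Finset.range q ×ˢ Finset.range (D.M n) : Finset (ℕ × ℕ)) := by
      rintro ⟨d, e⟩ h1 ⟨d', e'⟩ h2 h
      simp only [Finset.coe_product, Finset.coe_range, Set.mem_prod, Set.mem_Iio] at h1 h2
      simp only [F] at h
      have b1 : e * D.z n < D.z (n + 1) :=
        lt_of_le_of_lt (Nat.mul_le_mul_right _ h1.2.le) hMz
      have b2 : e' * D.z n < D.z (n + 1) :=
        lt_of_le_of_lt (Nat.mul_le_mul_right _ h2.2.le) hMz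
      have h3 : d = d' := by
        have := congrArg (fun t => t / D.z (n + 1)) h
        simp only [Nat.mul_comm _ (D.z (n + 1))] at this
        rw [Nat.mul_add_div hzp, Nat.mul_add_div hzp, Nat.div_eq_of_lt b1,
          Nat.div_eq_of_lt b2] at this
        simpa using this
      subst h3
      have h4 : e * D.z n = e' * D.z n := Nat.add_left_cancel h
      rw [Nat.eq_of_mul_eq_mul_right hzn h4]
    have hsub : (((Finset.range q ×ˢ Finset.range (D.M n)).image F).erase 0 : Finset ℕ) ⊆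
        (cnt_finite D.GG R).toFinset := by
      intro j hj
      rw [Finset.mem_erase, Finset.mem_image] at hj
      obtain ⟨hj0, ⟨d, e⟩, hde, rfl⟩ := hj
      rw [Finset.mem_product, Finset.mem_range, Finset.mem_range] at hde
      rw [Set.Finite.mem_toFinset]
      refine ⟨D.L_le_one n d e (by simp at hde; omega) hde.2.le, by omega, ?_⟩
      have h1 : F (d, e) ≤ N := by
        simp only [F]
        have b1 : e * D.z n ≤ D.z (n + 1) :=
          le_trans (Nat.mul_le_mul_right _ hde.2.le) hMz.le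
        have b2 : (d + 1) * D.z (n + 1) ≤ q * D.z (n + 1) := Nat.mul_le_mul_right _ hde.1
        linarith
      exact le_trans (by exact_mod_cast h1) hNR
    have hcard := Finset.card_le_card hsub
    have h1 : q * D.M n - 1 ≤ (((Finset.range q ×ˢ Finset.range (D.M n)).image F).erase 0).card := by
      refine le_trans (le_of_eq ?_) Finset.pred_card_le_card_erase
      rw [Finset.card_image_of_injOn hinj, Finset.card_product, Finset.card_range,
        Finset.card_range]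
    have h2 : (cnt_finite D.GG R).toFinset.card = cnt D.GG R := by
      unfold cnt
      rw [Set.ncard_eq_toFinset_card _ (cnt_finite D.GG R)]
    have h3 : q * D.M n - 1 ≤ cnt D.GG R := by rw [← h2]; exact h1.trans hcard
    have h4 : (q * D.M n : ℝ) - 1 ≤ cnt D.GG R := by
      have h5 : q * D.M n ≤ cnt D.GG R + 1 := by omega
      have h6 : (q * D.M n : ℝ) ≤ cnt D.GG R + 1 := by exact_mod_cast h5
      linarith
    refine le_trans ?_ h4
    have h5 := hn0 n hn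
    have hzR : (0 : ℝ) < D.z (n + 1) := D.zR_pos _
    have h6 : (N : ℝ) < (q + 1) * D.z (n + 1) := by exact_mod_cast hqN'
    have hq1' : (1 : ℝ) ≤ q := by exact_mod_cast hq1
    have h7 : R ≤ 4 * (q * D.z (n + 1)) := by nlinarith
    have h8 : (D.z (n + 1) : ℝ) ≤ R := le_trans (by exact_mod_cast hn2) hNR
    have h9 : R ^ (mu - 1) ≤ (D.z (n + 1) : ℝ) ^ (mu - 1) :=
      Real.rpow_le_rpow_of_nonpos hzR h8 (by linarith)
    have hRpos : 0 < R := by linarith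
    have h10 : R ^ mu = R ^ (mu - 1) * R := by
      rw [← Real.rpow_add_one hRpos.ne']; congr 1; ring
    have h11 : (D.z (n + 1) : ℝ) ^ mu = (D.z (n + 1) : ℝ) ^ (mu - 1) * D.z (n + 1) := by
      rw [← Real.rpow_add_one hzR.ne']; congr 1; ring
    have h12 : R ^ mu ≤ 4 * (q * D.M n) := by
      calc R ^ mu = R ^ (mu - 1) * R := h10
        _ ≤ (D.z (n + 1) : ℝ) ^ (mu - 1) * (4 * (q * D.z (n + 1))) :=
            mul_le_mul h9 h7 hR0 (Real.rpow_nonneg hzR.le _)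
        _ = 4 * (q * ((D.z (n + 1) : ℝ) ^ (mu - 1) * D.z (n + 1))) := by ring
        _ = 4 * (q * (D.z (n + 1) : ℝ) ^ mu) := by rw [h11]
        _ ≤ 4 * (q * D.M n) := by gcongr
    linarith
  · have hzp := D.z_pos (n + 1)
    have hsub : ((Finset.Icc 1 (D.M (n + 1))).image (fun d => d * D.z (n + 1)) : Finset ℕ) ⊆
        (cnt_finite D.GG R).toFinset := by
      intro j hj
      rw [Finset.mem_image] at hj
      obtain ⟨d, hd, rfl⟩ := hj
      rw [Finset.mem_Icc] at hd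
      rw [Set.Finite.mem_toFinset]
      refine ⟨?_, Nat.mul_pos (by omega) hzp, ?_⟩
      · have := D.L_le_one n d 0 hd.2 (Nat.zero_le _)
        rwa [zero_mul, add_zero] at this
      · have h1 : d * D.z (n + 1) ≤ N := (Nat.mul_le_mul_right _ hd.2).trans hcase.le
        exact le_trans (by exact_mod_cast h1) hNR
    have hcard := Finset.card_le_card hsub
    rw [Finset.card_image_of_injective _ (fun x y h => Nat.eq_of_mul_eq_mul_right hzp h),
      Nat.card_Icc, Nat.add_sub_cancel] at hcard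
    have h2 : (cnt_finite D.GG R).toFinset.card = cnt D.GG R := by
      unfold cnt
      rw [Set.ncard_eq_toFinset_card _ (cnt_finite D.GG R)]
    rw [h2] at hcard
    have h3 : (D.M (n + 1) : ℝ) ≤ cnt D.GG R := by exact_mod_cast hcard
    have h4 := hn0 (n + 1) (by omega)
    have h5 : R ≤ D.z (n + 1 + 1) := by
      have : (N : ℝ) + 1 ≤ D.z (n + 1 + 1) := by exact_mod_cast hn3
      linarith
    have h6 : R ^ mu ≤ (D.z (n + 1 + 1) : ℝ) ^ mu := Real.rpow_le_rpow hR0 h5 hm0.le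
    have h7 : 0 ≤ R ^ mu := Real.rpow_nonneg hR0 _
    linarith

theorem dens_GG (mu : ℝ) (h0 : 0 < lam) (hm0 : 0 < mu) (hm1 : mu < lam) (hl : lam ≤ 1) (J : ℕ) :
    ldens (1 / mu) (D.GG ∩ {j | J ≤ j}) ≠ 0 := by
  refine ldens_ne_zero _ _ 8 (by norm_num) ?_
  obtain ⟨R0, hR0⟩ := D.cnt_GG mu h0 hm0 hm1 hl
  have h1 : Tendsto (fun n : ℕ => (n : ℝ) ^ (1 / mu)) atTop atTop :=
    (tendsto_rpow_atTop (by positivity)).comp tendsto_natCast_atTop_atTop
  filter_upwards [h1.eventually_ge_atTop R0, eventually_ge_atTop (8 * (J + 1))] with n hn1 hn2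
  have h2 := hR0 _ hn1
  have h3 : ((n : ℝ) ^ (1 / mu)) ^ mu = n := by
    rw [← Real.rpow_mul (Nat.cast_nonneg n), one_div_mul_cancel hm0.ne', Real.rpow_one]
  rw [h3] at h2
  have h4 : cnt D.GG ((n : ℝ) ^ (1 / mu)) ≤ cnt (D.GG ∩ {j | J ≤ j}) ((n : ℝ) ^ (1 / mu)) + J := by
    refine le_trans (cnt_mono (B := (D.GG ∩ {j | J ≤ j}) ∪ {j | j < J}) ?_ _)
      ((cnt_union _ _ _).trans (Nat.add_le_add_left (cnt_lt _ _) _))
    intro j hj
    rcases Nat.lt_or_ge j J with h | h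
    · exact Or.inr h
    · exact Or.inl ⟨hj, h⟩
  have h5 : (cnt D.GG ((n : ℝ) ^ (1 / mu)) : ℝ) ≤
      cnt (D.GG ∩ {j | J ≤ j}) ((n : ℝ) ^ (1 / mu)) + J := by exact_mod_cast h4
  have h6 : (8 * ((J : ℝ) + 1)) ≤ n := by exact_mod_cast hn2
  push_cast
  linarith

end Dat

end Pool.Agent.R82.DC
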