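import Pool.Agent.R82.DC.Data

/-!
# The function `L` (MP_39b2af_an)
-/

set_option autoImplicit false

namespace Pool.Agent.R82.DC

open Filter Topology

/-! ### Distance to the multiples of a number -/

/-- distance of `k` to the multiples of `Z` -/
def dl (Z k : ℕ) : ℕ := min (k % Z) (Z - k % Z)

theorem dl_le_abs (Z k : ℕ) (hZ : 0 < Z) (t : ℤ) : (dl Z k : ℤ) ≤ |(k : ℤ) - t * Z| := by
  have h1 := Nat.div_add_mod k Z
  have h2 := Nat.mod_lt k hZ
  set q := k / Z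
  set r := k % Z with hr
  have hk : (k : ℤ) = Z * q + r := by exact_mod_cast h1.symm
  have hdl : (dl Z k : ℤ) = min (r : ℤ) ((Z : ℤ) - r) := by
    unfold dl
    rw [← hr]
    push_cast [Nat.cast_sub h2.le]
    rfl
  rw [hdl, hk]
  have hrZ : (r : ℤ) < Z := by exact_mod_cast h2
  have hr0 : (0 : ℤ) ≤ r := Int.natCast_nonneg r
  have hZ0 : (0 : ℤ) < Z := by exact_mod_cast hZ
  rcases le_or_gt t q with h | h
  · refine (min_le_left _ _).trans (le_trans ?_ (le_abs_self _))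
    nlinarith
  · refine (min_le_right _ _).trans (le_trans ?_ (neg_le_abs _))
    have : (q : ℤ) + 1 ≤ t := h
    nlinarith

theorem dl_exists (Z k : ℕ) (hZ : 0 < Z) : ∃ t : ℤ, (dl Z k : ℤ) = |(k : ℤ) - t * Z| := by
  have h1 := Nat.div_add_mod k Z
  have h2 := Nat.mod_lt k hZ
  set q := k / Z
  set r := k % Z with hr
  have hk : (k : ℤ) = Z * q + r := by exact_mod_cast h1.symm
  have hdl : (dl Z k : ℤ) = min (r : ℤ) ((Z : ℤ) - r) := by
    unfold dl
    rw [← hr]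
    push_cast [Nat.cast_sub h2.le]
    rfl
  have hrZ : (r : ℤ) < Z := by exact_mod_cast h2
  have hr0 : (0 : ℤ) ≤ r := Int.natCast_nonneg r
  rw [hdl, hk]
  rcases le_total (r : ℤ) ((Z : ℤ) - r) with h | h
  · refine ⟨q, ?_⟩
    rw [min_eq_left h]
    have : (Z : ℤ) * q + r - q * Z = r := by ring
    rw [this, abs_of_nonneg hr0]
  · refine ⟨q + 1, ?_⟩
    rw [min_eq_right h]
    have : (Z : ℤ) * q + r - (q + 1) * Z = -((Z : ℤ) - r) := by ring
    rw [this, abs_neg, abs_of_nonneg (by linarith)]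

theorem dl_add (Z j k : ℕ) (hZ : 0 < Z) : dl Z (j + k) ≤ dl Z j + dl Z k := by
  obtain ⟨t, ht⟩ := dl_exists Z j hZ
  obtain ⟨u, hu⟩ := dl_exists Z k hZ
  have h := dl_le_abs Z (j + k) hZ (t + u)
  have h2 : ((j + k : ℕ) : ℤ) - (t + u) * Z = ((j : ℤ) - t * Z) + ((k : ℤ) - u * Z) := by
    push_cast; ring
  rw [h2] at h
  have h3 := abs_add_le ((j : ℤ) - t * Z) ((k : ℤ) - u * Z)
  rw [← ht, ← hu] at h3
  exact_mod_cast h.trans h3

theorem dl_le (Z k : ℕ) : dl Z k ≤ k := (min_le_left _ _).trans (Nat.mod_le _ _)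

theorem dl_dvd {Z k : ℕ} (h : Z ∣ k) : dl Z k = 0 := by
  unfold dl
  rw [Nat.mod_eq_zero_of_dvd h]
  simp

theorem dl_add_mul (Z d k : ℕ) : dl Z (d * Z + k) = dl Z k := by
  unfold dl
  rw [Nat.mul_add_mod_self_right]

theorem dl_lower {Z k W : ℕ} (h1 : W ≤ k) (h2 : k + W ≤ Z) : W ≤ dl Z k := by
  unfold dl
  rcases Nat.lt_or_ge k Z with h | h
  · rw [Nat.mod_eq_of_lt h]
    omega
  · omega

/-! ### The function -/

namespace Dat

variable {lam : ℝ} (D : Dat lam)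

/-- `z_n` -/
def z (n : ℕ) : ℕ := 2 ^ D.a n
/-- `M_n` -/
def M (n : ℕ) : ℕ := 2 ^ D.m n
/-- `H_n` -/
def H (n : ℕ) : ℝ := 6 * D.a (n + 1)
/-- `W_n` -/
def W (n : ℕ) : ℕ := 2 ^ (n + 2) * (6 * D.a (n + 1)) * D.M n * D.z n
/-- `s_n` -/
noncomputable def s (n : ℕ) : ℝ := (1 / 2) ^ (n + 1) / (2 * D.M n * D.z n)

theorem z_pos (n : ℕ) : 0 < D.z n := by unfold z; positivity
theorem M_pos (n : ℕ) : 0 < D.M n := by unfold M; positivity
theorem zR_pos (n : ℕ) : (0 : ℝ) < D.z n := by exact_mod_cast D.z_pos n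
theorem MR_pos (n : ℕ) : (0 : ℝ) < D.M n := by exact_mod_cast D.M_pos n
theorem H_nonneg (n : ℕ) : 0 ≤ D.H n := by unfold H; positivity
theorem s_pos (n : ℕ) : 0 < D.s n := by
  have := D.zR_pos n
  have := D.MR_pos n
  unfold s
  positivity

theorem s_mul (n : ℕ) : D.s n * (2 * D.M n * D.z n) = (1 / 2) ^ (n + 1) := by
  have := D.zR_pos n
  have := D.MR_pos n
  unfold s
  field_simp

theorem s_W (n : ℕ) : D.s n * D.W n = D.H n := by
  have h := D.s_mul n
  unfold W H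
  push_cast
  calc D.s n * (2 ^ (n + 2) * (6 * D.a (n + 1)) * D.M n * D.z n)
      = (D.s n * (2 * D.M n * D.z n)) * (2 ^ (n + 1) * (6 * D.a (n + 1))) := by ring
    _ = ((1 / 2) ^ (n + 1) * 2 ^ (n + 1)) * (6 * D.a (n + 1)) := by rw [h]; ring
    _ = 6 * D.a (n + 1) := by rw [← mul_pow]; norm_num

theorem s_le (n : ℕ) : D.s n ≤ (1 / 2) ^ (n + 1) := by
  rw [← D.s_mul n]
  have h1 : (1 : ℝ) ≤ 2 * D.M n * D.z n := by
    have h2 : 1 ≤ 2 * D.M n * D.z n := Nat.mul_pos (Nat.mul_pos (by norm_num) (D.M_pos n))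
      (D.z_pos n)
    exact_mod_cast h2
  exact le_mul_of_one_le_right (D.s_pos n).le h1

theorem z_zero : D.z 0 = 1 := by unfold z; rw [D.a0, pow_zero]

theorem a_mono : Monotone D.a := monotone_nat_of_le_succ fun n => (D.amono n).le

theorem z_dvd {m n : ℕ} (h : m ≤ n) : D.z m ∣ D.z n := pow_dvd_pow 2 (D.a_mono h)

theorem z_mono : Monotone D.z := fun _ _ h => Nat.le_of_dvd (D.z_pos _) (D.z_dvd h)

theorem z_lt (n : ℕ) : D.z n < D.z (n + 1) := Nat.pow_lt_pow_right (by norm_num) (D.amono n)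

theorem Mz_le (n : ℕ) : 2 * (D.M n * D.z n) ≤ D.z (n + 1) := by
  have := D.P1 n
  unfold M z
  linarith

theorem Mz_mono : Monotone fun n => D.M n * D.z n := by
  refine monotone_nat_of_le_succ fun n => ?_
  have h1 := D.Mz_le n
  have h2 : D.z (n + 1) ≤ D.M (n + 1) * D.z (n + 1) := Nat.le_mul_of_pos_left _ (D.M_pos _)
  change D.M n * D.z n ≤ D.M (n + 1) * D.z (n + 1)
  omega

theorem a_pos (n : ℕ) : 0 < D.a (n + 1) := lt_of_le_of_lt (Nat.zero_le _) (D.amono n)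

theorem Mz_le_W (n : ℕ) : D.M n * D.z n ≤ D.W n := by
  unfold W
  rw [mul_assoc]
  apply Nat.le_mul_of_pos_left
  have := D.a_pos n
  positivity

theorem W_le (_hl : 0 < lam) (hl1 : lam ≤ 1) (n : ℕ) : 2 * D.W n ≤ D.z (n + 1) := by
  have h1 := D.P6 n
  have h2 : (2 * (D.W n : ℝ)) = 2 * (2 ^ (n + 2) * (6 * D.a (n + 1)) * 2 ^ D.m n * 2 ^ D.a n) := by
    unfold W M z
    push_cast
    ring
  rw [← h2] at h1
  have h3 : ((2 : ℝ) ^ D.a (n + 1)) ^ lam ≤ (2 : ℝ) ^ D.a (n + 1) := by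
    calc ((2 : ℝ) ^ D.a (n + 1)) ^ lam ≤ ((2 : ℝ) ^ D.a (n + 1)) ^ (1 : ℝ) :=
          Real.rpow_le_rpow_of_exponent_le (one_le_pow₀ (by norm_num)) hl1
      _ = _ := Real.rpow_one _
  have h4 : (2 * (D.W n : ℝ)) ≤ D.z (n + 1) := by
    have h5 : (0 : ℝ) ≤ 2 * D.W n := by positivity
    have h6 : (0 : ℝ) ≤ n := Nat.cast_nonneg n
    have h7 : (D.z (n + 1) : ℝ) = 2 ^ D.a (n + 1) := by unfold z; push_cast; rfl
    rw [h7]
    nlinarith
  exact_mod_cast h4

theorem W_mono (hl : 0 < lam) (hl1 : lam ≤ 1) : Monotone D.W := by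
  refine monotone_nat_of_le_succ fun n => ?_
  have h1 := D.W_le hl hl1 n
  have h2 := D.Mz_le_W (n + 1)
  have h3 : D.z (n + 1) ≤ D.M (n + 1) * D.z (n + 1) := Nat.le_mul_of_pos_left _ (D.M_pos _)
  omega

/-- `g_n` -/
noncomputable def g (n k : ℕ) : ℝ := min (D.H n) (D.s n * dl (D.z (n + 1)) k)

theorem g_nonneg (n k : ℕ) : 0 ≤ D.g n k :=
  le_min (D.H_nonneg n) (mul_nonneg (D.s_pos n).le (Nat.cast_nonneg _))

theorem g_le_H (n k : ℕ) : D.g n k ≤ D.H n := min_le_left _ _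

theorem g_le_s (n k : ℕ) : D.g n k ≤ D.s n * k := by
  refine (min_le_right _ _).trans ?_
  have : (dl (D.z (n + 1)) k : ℝ) ≤ k := by exact_mod_cast dl_le _ _
  exact mul_le_mul_of_nonneg_left this (D.s_pos n).le

theorem g_le_of (n k : ℕ) (h : k ≤ 2 * (D.M n * D.z n)) : D.g n k ≤ (1 / 2) ^ (n + 1) := by
  refine (D.g_le_s n k).trans ?_
  rw [← D.s_mul n]
  apply mul_le_mul_of_nonneg_left _ (D.s_pos n).le
  rw [mul_assoc]
  exact_mod_cast h

theorem g_add (n j k : ℕ) : D.g n (j + k) ≤ D.g n j + D.g n k := by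
  have h := dl_add (D.z (n + 1)) j k (D.z_pos _)
  have h' : (dl (D.z (n + 1)) (j + k) : ℝ) ≤ dl (D.z (n + 1)) j + dl (D.z (n + 1)) k := by
    exact_mod_cast h
  have h2 := mul_le_mul_of_nonneg_left h' (D.s_pos n).le
  have h3 := D.g_nonneg n j
  have h4 := D.g_nonneg n k
  have h5 := D.H_nonneg n
  have h6 : 0 ≤ D.s n * (dl (D.z (n + 1)) j : ℝ) := mul_nonneg (D.s_pos n).le (Nat.cast_nonneg _)
  have h7 : 0 ≤ D.s n * (dl (D.z (n + 1)) k : ℝ) := mul_nonneg (D.s_pos n).le (Nat.cast_nonneg _)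
  unfold g at *
  rcases le_total (D.H n) (D.s n * (dl (D.z (n + 1)) j : ℝ)) with h8 | h8
  · rw [min_eq_left h8] at *
    exact (min_le_left _ _).trans (by linarith)
  · rcases le_total (D.H n) (D.s n * (dl (D.z (n + 1)) k : ℝ)) with h9 | h9
    · rw [min_eq_left h9] at *
      exact (min_le_left _ _).trans (by linarith)
    · rw [min_eq_right h8, min_eq_right h9]
      refine (min_le_right _ _).trans ?_
      rw [← mul_add]
      exact h2

theorem summable_half : Summable fun n : ℕ => ((1 : ℝ) / 2) ^ (n + 1) := by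
  have := summable_geometric_two
  exact (summable_nat_add_iff 1).2 this

theorem tsum_half : ∑' n : ℕ, ((1 : ℝ) / 2) ^ (n + 1) = 1 := by
  have h := summable_geometric_two.tsum_eq_zero_add
  rw [tsum_geometric_two] at h
  simp at h
  have : ∑' n : ℕ, ((1 : ℝ) / 2) ^ (n + 1) = ∑' b : ℕ, ((2 : ℝ) ^ (b + 1))⁻¹ := by
    refine tsum_congr fun n => ?_
    rw [one_div, inv_pow]
  rw [this]
  linarith

theorem g_summable (k : ℕ) : Summable fun n => D.g n k := by
  refine Summable.of_nonneg_of_le (fun n => D.g_nonneg n k) (fun n => ?_)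
    (summable_half.mul_right (k : ℝ))
  exact (D.g_le_s n k).trans (mul_le_mul_of_nonneg_right (D.s_le n) (Nat.cast_nonneg _))

/-- `L` -/
noncomputable def L (k : ℕ) : ℝ := ∑' n, D.g n k

theorem L_nonneg (k : ℕ) : 0 ≤ D.L k := tsum_nonneg fun n => D.g_nonneg n k

theorem L_zero : D.L 0 = 0 := by
  unfold L
  have : ∀ n, D.g n 0 = 0 := fun n =>
    le_antisymm (by simpa using D.g_le_s n 0) (D.g_nonneg n 0)
  simp [this]

theorem L_add (j k : ℕ) : D.L (j + k) ≤ D.L j + D.L k := by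
  unfold L
  rw [← (D.g_summable j).tsum_add (D.g_summable k)]
  exact (D.g_summable _).tsum_le_tsum (fun n => D.g_add n j k)
    ((D.g_summable j).add (D.g_summable k))

theorem g_le_L (n k : ℕ) : D.g n k ≤ D.L k :=
  (D.g_summable k).le_tsum n (fun m _ => D.g_nonneg m k)

theorem L_one : D.L 1 ≤ 1 := by
  unfold L
  rw [← tsum_half]
  refine (D.g_summable 1).tsum_le_tsum (fun n => ?_) summable_half
  have := D.g_le_s n 1
  rw [Nat.cast_one, mul_one] at this
  exact this.trans (D.s_le n)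

/-- (F2) -/
theorem L_le_one (n d d' : ℕ) (hd : d ≤ D.M (n + 1)) (hd' : d' ≤ D.M n) :
    D.L (d * D.z (n + 1) + d' * D.z n) ≤ 1 := by
  set j := d * D.z (n + 1) + d' * D.z n with hj
  unfold L
  rw [← tsum_half]
  refine (D.g_summable j).tsum_le_tsum (fun l => ?_) summable_half
  rcases lt_trichotomy l n with h | h | h
  · have h1 : D.z (l + 1) ∣ j := by
      refine dvd_add (Dvd.dvd.mul_left (D.z_dvd (by omega)) _)
        (Dvd.dvd.mul_left (D.z_dvd (by omega)) _)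
    unfold g
    rw [dl_dvd h1]
    simp only [Nat.cast_zero, mul_zero]
    exact (min_le_right _ _).trans (by positivity)
  · subst h
    have h1 : dl (D.z (l + 1)) j ≤ 2 * (D.M l * D.z l) := by
      rw [hj, dl_add_mul]
      refine (dl_le _ _).trans ?_
      have : d' * D.z l ≤ D.M l * D.z l := Nat.mul_le_mul_right _ hd'
      omega
    unfold g
    refine (min_le_right _ _).trans ?_
    rw [← D.s_mul l]
    apply mul_le_mul_of_nonneg_left _ (D.s_pos l).le
    rw [mul_assoc]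
    exact_mod_cast h1
  · apply D.g_le_of
    have h1 : d * D.z (n + 1) ≤ D.M (n + 1) * D.z (n + 1) := Nat.mul_le_mul_right _ hd
    have h2 : d' * D.z n ≤ D.M n * D.z n := Nat.mul_le_mul_right _ hd'
    have h3 : D.M n * D.z n ≤ D.M (n + 1) * D.z (n + 1) := D.Mz_mono (Nat.le_succ n)
    have h4 : D.M (n + 1) * D.z (n + 1) ≤ D.M l * D.z l := D.Mz_mono h
    omega

theorem L_small (n j : ℕ) (hj : j ≤ D.M n * D.z n) : D.L j ≤ 1 + 6 * n * D.a n := by
  have hs : Summable fun l : ℕ => if l ∈ Finset.range n then D.H l else 0 :=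
    summable_of_ne_finset_zero (s := Finset.range n) (fun l hl => if_neg hl)
  have h1 : ∀ l, D.g l j ≤ (if l ∈ Finset.range n then D.H l else 0) + (1 / 2) ^ (l + 1) := by
    intro l
    split_ifs with h
    · have := D.g_le_H l j
      have h2 : (0 : ℝ) ≤ (1 / 2) ^ (l + 1) := by positivity
      linarith
    · rw [zero_add]
      apply D.g_le_of
      have hl : n ≤ l := by simpa using h
      have h4 : D.M n * D.z n ≤ D.M l * D.z l := D.Mz_mono hl
      omega
  unfold L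
  have h2 := (D.g_summable j).tsum_le_tsum h1 (hs.add summable_half)
  have h4 : (∑' b, if b ∈ Finset.range n then D.H b else 0) = ∑ b ∈ Finset.range n, D.H b := by
    rw [tsum_eq_sum (s := Finset.range n) (fun b hb => if_neg hb)]
    exact Finset.sum_congr rfl (fun b hb => if_pos hb)
  rw [hs.tsum_add summable_half, tsum_half, h4] at h2
  refine h2.trans ?_
  have h3 : ∑ b ∈ Finset.range n, D.H b ≤ 6 * n * D.a n := by
    have : ∀ b ∈ Finset.range n, D.H b ≤ 6 * D.a n := by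
      intro b hb
      have hb' : b + 1 ≤ n := by simpa using hb
      unfold H
      have : (D.a (b + 1) : ℝ) ≤ D.a n := by exact_mod_cast D.a_mono hb'
      linarith
    refine (Finset.sum_le_sum this).trans ?_
    rw [Finset.sum_const, Finset.card_range, nsmul_eq_mul]
    linarith [mul_comm (n : ℝ) (6 * D.a n)]
  linarith

/-- the set where `L` is large -/
def SS : Set ℕ := {k | ∃ n, D.W n ≤ k ∧ k + D.W n ≤ D.z (n + 1)}

theorem L_SS {k : ℕ} (hk : k ∈ D.SS) : (k : ℝ) ^ 6 ≤ Real.exp (D.L k) := by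
  obtain ⟨n, h1, h2⟩ := hk
  have h3 : D.H n ≤ D.L k := by
    refine le_trans ?_ (D.g_le_L n k)
    unfold g
    refine le_min le_rfl ?_
    rw [← D.s_W n]
    apply mul_le_mul_of_nonneg_left _ (D.s_pos n).le
    exact_mod_cast dl_lower h1 h2
  have h4 : (k : ℝ) ≤ 2 ^ D.a (n + 1) := by
    have : k ≤ D.z (n + 1) := by omega
    unfold z at this
    exact_mod_cast this
  have h5 : (2 : ℝ) ≤ Real.exp 1 := by
    have := Real.add_one_le_exp (1 : ℝ)
    linarith
  calc (k : ℝ) ^ 6 ≤ ((2 : ℝ) ^ D.a (n + 1)) ^ 6 := pow_le_pow_left₀ (Nat.cast_nonneg _) h4 _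
    _ ≤ ((Real.exp 1) ^ D.a (n + 1)) ^ 6 := by gcongr
    _ = Real.exp (D.H n) := by
        rw [← Real.exp_nat_mul, ← Real.exp_nat_mul]
        unfold H
        push_cast
        congr 1
        ring
    _ ≤ Real.exp (D.L k) := Real.exp_le_exp.2 h3

theorem SS_gap (hl : 0 < lam) (hl1 : lam ≤ 1) {n k : ℕ} (hk : k ∈ D.SS) (h : D.z n < k) :
    D.W n ≤ k := by
  obtain ⟨l, h1, h2⟩ := hk
  rcases Nat.lt_or_ge l n with h3 | h3
  · have : D.z (l + 1) ≤ D.z n := D.z_mono h3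
    omega
  · exact (D.W_mono hl hl1 h3).trans h1

theorem SS_compl (n : ℕ) : {k : ℕ | k ∉ D.SS ∧ 1 ≤ k ∧ k ≤ D.z (n + 1)} ⊆
    ((Finset.range (D.W n) ∪ Finset.Ioc (D.z (n + 1) - D.W n) (D.z (n + 1)) : Finset ℕ) :
      Set ℕ) := by
  rintro k ⟨h1, h2, h3⟩
  simp only [Finset.coe_union, Finset.coe_range, Finset.coe_Ioc, Set.mem_union, Set.mem_Iio,
    Set.mem_Ioc]
  by_contra hc
  push Not at hc
  apply h1
  refine ⟨n, hc.1, ?_⟩
  by_contra h4
  have := hc.2 (by omega)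
  omega

theorem SS_compl_card (n : ℕ) :
    ({k : ℕ | k ∉ D.SS ∧ 1 ≤ k ∧ k ≤ D.z (n + 1)}).ncard ≤ 2 * D.W n := by
  refine (Set.ncard_le_ncard (D.SS_compl n) (Finset.finite_toSet _)).trans ?_
  rw [Set.ncard_coe_finset]
  refine (Finset.card_union_le _ _).trans ?_
  rw [Finset.card_range, Nat.card_Ioc]
  omega

end Dat

end Pool.Agent.R82.DC
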