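import Pool.Agent.R82.DC.Space

/-!
# The sequence spaces `ℓ^p` and `c₀` (MP_39b2af_an)
-/

set_option autoImplicit false

namespace Pool.Agent.R82.DC

open Filter Topology
open scoped ENNReal ZeroAtInfty

section lp

variable {𝕂 : Type} [RCLike 𝕂] {p : ℝ≥0∞} [Fact (1 ≤ p)]

/-- coordinates in `ℓ^p` -/
noncomputable def lpC (𝕂 : Type) [RCLike 𝕂] (p : ℝ≥0∞) [Fact (1 ≤ p)] (n : ℕ) :
    lp (fun _ : ℕ => 𝕂) p →L[𝕂] 𝕂 :=
  LinearMap.mkContinuous ⟨⟨fun f => f n, fun _ _ => rfl⟩, fun _ _ => rfl⟩ 1 (fun f => by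
    rw [one_mul]
    exact lp.norm_apply_le_norm (zero_lt_one.trans_le Fact.out).ne' f n)

theorem lpC_apply (n : ℕ) (f : lp (fun _ : ℕ => 𝕂) p) : lpC 𝕂 p n f = f n := rfl

theorem lp_solid (hp : p ≠ ⊤) (j : ℕ) (c : ℕ → ℝ) (C : ℝ) (hC : 0 ≤ C) (hc : ∀ k, |c k| ≤ C)
    (x : lp (fun _ : ℕ => 𝕂) p) : ∃ y : lp (fun _ : ℕ => 𝕂) p,
      (∀ k, y k = (c k : 𝕂) * x (k + j)) ∧ ‖y‖ ≤ C * ‖x‖ := by
  have hp0 : 0 < p := zero_lt_one.trans_le Fact.out
  have hpr : 0 < p.toReal := ENNReal.toReal_pos hp0.ne' hp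
  have hs : Summable fun k => ‖x k‖ ^ p.toReal := (lp.memℓp x).summable hpr
  have hs' : Summable fun k => ‖x (k + j)‖ ^ p.toReal := (summable_nat_add_iff j).2 hs
  have hle : ∀ k, ‖(c k : 𝕂) * x (k + j)‖ ^ p.toReal ≤ C ^ p.toReal * ‖x (k + j)‖ ^ p.toReal := by
    intro k
    rw [norm_mul, RCLike.norm_ofReal, ← Real.mul_rpow hC (norm_nonneg _)]
    exact Real.rpow_le_rpow (by positivity) (mul_le_mul_of_nonneg_right (hc k) (norm_nonneg _))
      hpr.le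
  have hmem : Memℓp (fun k => (c k : 𝕂) * x (k + j)) p :=
    memℓp_gen (Summable.of_nonneg_of_le (fun k => Real.rpow_nonneg (norm_nonneg _) _) hle
      (hs'.mul_left _))
  refine ⟨⟨_, hmem⟩, fun k => rfl, ?_⟩
  refine lp.norm_le_of_tsum_le hpr (mul_nonneg hC (norm_nonneg _)) ?_
  rw [Real.mul_rpow hC (norm_nonneg _), lp.norm_rpow_eq_tsum hpr]
  have h1 : ∑' k, ‖(c k : 𝕂) * x (k + j)‖ ^ p.toReal ≤
      ∑' k, C ^ p.toReal * ‖x (k + j)‖ ^ p.toReal :=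
    Summable.tsum_le_tsum hle (Summable.of_nonneg_of_le
      (fun k => Real.rpow_nonneg (norm_nonneg _) _) hle (hs'.mul_left _)) (hs'.mul_left _)
  refine h1.trans ?_
  rw [tsum_mul_left]
  apply mul_le_mul_of_nonneg_left _ (Real.rpow_nonneg hC _)
  have h2 := hs.sum_add_tsum_nat_add j
  have h3 : 0 ≤ ∑ i ∈ Finset.range j, ‖x i‖ ^ p.toReal :=
    Finset.sum_nonneg fun i _ => Real.rpow_nonneg (norm_nonneg _) _
  linarith

/-- `ℓ^p` -/
noncomputable def lpSp (𝕂 : Type) [RCLike 𝕂] (p : ℝ≥0∞) [Fact (1 ≤ p)] (hp : p ≠ ⊤) :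
    SeqSp 𝕂 (lp (fun _ : ℕ => 𝕂) p) where
  coord := lpC 𝕂 p
  e n := lp.single p n (1 : 𝕂)
  coord_e m n := by
    rw [lpC_apply, lp.single_apply, Pi.single_apply]
  coord_le n x := lp.norm_apply_le_norm (zero_lt_one.trans_le Fact.out).ne' x n
  norm_e n := by
    rw [lp.norm_single (zero_lt_one.trans_le Fact.out), norm_one]
  ext x y h := lp.ext (funext h)
  solid := lp_solid hp
  dense := by
    intro x
    refine mem_closure_of_tendsto (lp.hasSum_single hp x) (Eventually.of_forall fun s => ?_)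
    refine Submodule.sum_mem _ fun i _ => ?_
    have : (lp.single p i (x i) : lp (fun _ : ℕ => 𝕂) p) =
        (x i : 𝕂) • (lp.single p i (1 : 𝕂) : lp (fun _ : ℕ => 𝕂) p) := by
      rw [← lp.single_smul, smul_eq_mul, mul_one]
    rw [this]
    exact Submodule.smul_mem _ _ (Submodule.subset_span ⟨i, rfl⟩)

end lp

section c0

variable {𝕂 : Type} [RCLike 𝕂]

/-- the canonical basis of `c₀` -/
noncomputable def c0e (𝕂 : Type) [RCLike 𝕂] (n : ℕ) : C₀(ℕ, 𝕂) where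
  toFun := Pi.single n 1
  continuous_toFun := continuous_of_discreteTopology
  zero_at_infty' := by
    rw [cocompact_eq_cofinite]
    refine tendsto_nhds_of_eventually_eq ?_
    rw [Filter.eventually_cofinite]
    refine (Set.finite_singleton n).subset ?_
    intro k hk
    by_contra hc
    exact hk (Pi.single_eq_of_ne hc _)

theorem c0e_apply (n k : ℕ) : c0e 𝕂 n k = if k = n then 1 else 0 := by
  change (Pi.single n 1 : ℕ → 𝕂) k = _
  rw [Pi.single_apply]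

theorem c0_le (x : C₀(ℕ, 𝕂)) (n : ℕ) : ‖x n‖ ≤ ‖x‖ := by
  rw [← ZeroAtInftyContinuousMap.norm_toBCF_eq_norm]
  exact x.toBCF.norm_coe_le_norm n

theorem c0_norm_le (x : C₀(ℕ, 𝕂)) (C : ℝ) (hC : 0 ≤ C) (h : ∀ n, ‖x n‖ ≤ C) : ‖x‖ ≤ C := by
  rw [← ZeroAtInftyContinuousMap.norm_toBCF_eq_norm]
  exact (BoundedContinuousFunction.norm_le hC).2 h

/-- coordinates in `c₀` -/
noncomputable def c0C (𝕂 : Type) [RCLike 𝕂] (n : ℕ) : C₀(ℕ, 𝕂) →L[𝕂] 𝕂 :=
  LinearMap.mkContinuous ⟨⟨fun f => f n, fun _ _ => rfl⟩, fun _ _ => rfl⟩ 1 (fun f => by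
    rw [one_mul]
    exact c0_le f n)

theorem c0C_apply (n : ℕ) (f : C₀(ℕ, 𝕂)) : c0C 𝕂 n f = f n := rfl

theorem c0_tendsto (x : C₀(ℕ, 𝕂)) : Tendsto x atTop (𝓝 0) := by
  have := x.zero_at_infty'
  rw [cocompact_eq_cofinite, Nat.cofinite_eq_atTop] at this
  exact this

theorem c0_solid (j : ℕ) (c : ℕ → ℝ) (C : ℝ) (hC : 0 ≤ C) (hc : ∀ k, |c k| ≤ C)
    (x : C₀(ℕ, 𝕂)) : ∃ y : C₀(ℕ, 𝕂),
      (∀ k, y k = (c k : 𝕂) * x (k + j)) ∧ ‖y‖ ≤ C * ‖x‖ := by
  have hle : ∀ k, ‖(c k : 𝕂) * x (k + j)‖ ≤ C * ‖x (k + j)‖ := by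
    intro k
    rw [norm_mul, RCLike.norm_ofReal]
    exact mul_le_mul_of_nonneg_right (hc k) (norm_nonneg _)
  refine ⟨⟨⟨fun k => (c k : 𝕂) * x (k + j), continuous_of_discreteTopology⟩, ?_⟩, fun k => rfl, ?_⟩
  · rw [cocompact_eq_cofinite, Nat.cofinite_eq_atTop]
    refine squeeze_zero_norm hle ?_
    have h1 : Tendsto (fun k => x (k + j)) atTop (𝓝 0) :=
      (c0_tendsto x).comp (tendsto_add_atTop_nat j)
    have h2 := h1.norm.const_mul C
    simpa using h2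
  · refine c0_norm_le _ _ (mul_nonneg hC (norm_nonneg _)) fun k => ?_
    exact (hle k).trans (mul_le_mul_of_nonneg_left (c0_le x _) hC)

/-- `c₀` -/
noncomputable def c0Sp (𝕂 : Type) [RCLike 𝕂] : SeqSp 𝕂 C₀(ℕ, 𝕂) where
  coord := c0C 𝕂
  e := c0e 𝕂
  coord_e m n := by rw [c0C_apply, c0e_apply]
  coord_le n x := c0_le x n
  norm_e n := by
    refine c0_norm_le _ _ zero_le_one fun k => ?_
    rw [c0e_apply]
    split_ifs <;> simp
  ext x y h := ZeroAtInftyContinuousMap.ext h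
  solid := c0_solid
  dense := by
    intro x
    rw [Metric.mem_closure_iff]
    intro ε hε
    obtain ⟨N, hN⟩ := Metric.tendsto_atTop.1 (c0_tendsto x) (ε / 2) (by positivity)
    refine ⟨∑ k ∈ Finset.range N, x k • c0e 𝕂 k, Submodule.sum_mem _ fun i _ =>
      Submodule.smul_mem _ _ (Submodule.subset_span ⟨i, rfl⟩), ?_⟩
    rw [dist_eq_norm]
    refine lt_of_le_of_lt (c0_norm_le _ (ε / 2) (by positivity) fun n => ?_) (by linarith)
    have h1 : (x - ∑ k ∈ Finset.range N, x k • c0e 𝕂 k) n =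
        c0C 𝕂 n (x - ∑ k ∈ Finset.range N, x k • c0e 𝕂 k) := rfl
    rw [h1, map_sub, map_sum]
    have h2 : ∑ k ∈ Finset.range N, c0C 𝕂 n (x k • c0e 𝕂 k) =
        if n ∈ Finset.range N then x n else 0 := by
      rw [← Finset.sum_ite_eq (Finset.range N) n (fun k => x k)]
      refine Finset.sum_congr rfl fun k _ => ?_
      rw [map_smul, c0C_apply, c0e_apply, smul_eq_mul]
      split_ifs <;> simp
    rw [h2, c0C_apply]
    split_ifs with h
    · rw [sub_self, norm_zero]; positivity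
    · have h3 := hN n (by simpa using h)
      rw [dist_zero_right] at h3
      rw [sub_zero]
      exact h3.le

end c0

end Pool.Agent.R82.DC
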