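import Pool.Agent.R82.DC.Dens

/-!
# Weighted backward shifts on sequence spaces (MP_39b2af_an)
-/

set_option autoImplicit false
set_option linter.unusedSectionVars false

namespace Pool.Agent.R82.DC

open Filter Topology
open scoped ENNReal

section defs

variable {𝕂 X : Type*} [RCLike 𝕂] [NormedAddCommGroup X] [NormedSpace 𝕂 X]

/-- `T` is the weighted backward shift with the weights `ω` for the basis `e` -/
def IsShift (e : ℕ → X) (ω : ℕ → ℝ) (T : X →L[𝕂] X) : Prop :=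
  T (e 0) = 0 ∧ ∀ n, T (e (n + 1)) = (ω (n + 1) : 𝕂) • e n

/-- the defining property of the scrambled sets in `λ`-distributional chaos -/
def Scrambled (lam σ : ℝ) (T : X →L[𝕂] X) (S : Set X) : Prop :=
  ∀ x ∈ S, ∀ y ∈ S, x ≠ y →
    ldens (1 / lam) {j | ‖(T ^ j) x - (T ^ j) y‖ < σ} = 0 ∧
    ∀ ε : ℝ, 0 < ε → ldens (1 / lam) {j | ε < ‖(T ^ j) x - (T ^ j) y‖} = 0

/-- `λ`-distributional chaos -/
def DistChaotic (lam : ℝ) (T : X →L[𝕂] X) : Prop :=
  ∃ S : Set X, ¬ S.Countable ∧ ∃ σ : ℝ, 0 < σ ∧ Scrambled lam σ T S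

/-- dense `λ`-distributional chaos -/
def DenselyDistChaotic (lam : ℝ) (T : X →L[𝕂] X) : Prop :=
  ∃ S : Set X, ¬ S.Countable ∧ Dense S ∧ ∃ σ : ℝ, 0 < σ ∧ Scrambled lam σ T S

end defs

/-- sequence spaces -/
structure SeqSp (𝕂 X : Type*) [RCLike 𝕂] [NormedAddCommGroup X] [NormedSpace 𝕂 X] where
  /-- coordinates -/
  coord : ℕ → X →L[𝕂] 𝕂
  /-- basis -/
  e : ℕ → X
  coord_e : ∀ m n, coord m (e n) = if m = n then 1 else 0
  coord_le : ∀ n x, ‖coord n x‖ ≤ ‖x‖
  norm_e : ∀ n, ‖e n‖ ≤ 1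
  ext : ∀ x y : X, (∀ n, coord n x = coord n y) → x = y
  solid : ∀ (j : ℕ) (c : ℕ → ℝ) (C : ℝ), 0 ≤ C → (∀ k, |c k| ≤ C) → ∀ x, ∃ y,
    (∀ k, coord k y = (c k : 𝕂) * coord (k + j) x) ∧ ‖y‖ ≤ C * ‖x‖
  dense : Dense (Submodule.span 𝕂 (Set.range e) : Set X)

theorem ldens_mono (q : ℝ) {A B : Set ℕ} (h : A ⊆ B) : ldens q A ≤ ldens q B := by
  unfold ldens
  refine liminf_le_liminf (Eventually.of_forall fun n => ?_)
  have : (cnt A ((n : ℝ) ^ q) : ℝ≥0∞) ≤ cnt B ((n : ℝ) ^ q) := by exact_mod_cast cnt_mono h _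
  exact ENNReal.div_le_div_right this _

theorem ldens_zero_mono (q : ℝ) {A B : Set ℕ} (h : A ⊆ B) (hB : ldens q B = 0) :
    ldens q A = 0 := le_antisymm (hB ▸ ldens_mono q h) zero_le

section main

variable {𝕂 X : Type*} [RCLike 𝕂] [NormedAddCommGroup X] [NormedSpace 𝕂 X]
  (Q : SeqSp 𝕂 X) {lam : ℝ} (D : Dat lam)

/-- the weights -/
noncomputable def wt (n : ℕ) : ℝ := Real.exp (D.L n - D.L (n - 1))

theorem wt_pos (n : ℕ) : 0 < wt D n := Real.exp_pos _

theorem wt_le (n : ℕ) : wt D n ≤ Real.exp 1 := by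
  unfold wt
  apply Real.exp_le_exp.2
  rcases Nat.eq_zero_or_pos n with rfl | h
  · simp
  · obtain ⟨k, rfl⟩ : ∃ k, n = k + 1 := ⟨n - 1, by omega⟩
    have h1 := D.L_add k 1
    have h2 := D.L_one
    rw [Nat.add_sub_cancel]
    linarith

theorem exists_T : ∃ T : X →L[𝕂] X, ∀ x k, Q.coord k (T x) = (wt D (k + 1) : 𝕂) * Q.coord (k + 1) x := by
  have h := fun x => Q.solid 1 (fun k => wt D (k + 1)) (Real.exp 1) (Real.exp_pos _).le
    (fun k => by rw [abs_of_pos (wt_pos D _)]; exact wt_le D _) x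
  choose f hf hf' using h
  refine ⟨LinearMap.mkContinuous ⟨⟨f, ?_⟩, ?_⟩ (Real.exp 1) hf', hf⟩
  · intro x y
    apply Q.ext
    intro n
    rw [map_add, hf, hf, hf, map_add]
    ring
  · intro a x
    apply Q.ext
    intro n
    simp only [RingHom.id_apply, map_smul, smul_eq_mul, hf]
    ring

variable (T : X →L[𝕂] X)
  (hT : ∀ x k, Q.coord k (T x) = (wt D (k + 1) : 𝕂) * Q.coord (k + 1) x)

include hT

theorem isShift : IsShift Q.e (wt D) T := by
  constructor
  · apply Q.ext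
    intro k
    rw [hT, Q.coord_e]
    simp
  · intro n
    apply Q.ext
    intro k
    rw [hT, Q.coord_e, map_smul, Q.coord_e]
    by_cases h : k = n
    · subst h; simp
    · simp [h]

theorem coord_pow (j : ℕ) : ∀ x k, Q.coord k ((T ^ j) x) =
    (Real.exp (D.L (k + j) - D.L k) : 𝕂) * Q.coord (k + j) x := by
  induction j with
  | zero => intro x k; simp
  | succ j ih =>
    intro x k
    rw [pow_succ']
    change Q.coord k (T ((T ^ j) x)) = _
    rw [hT, ih, ← mul_assoc]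
    have h1 : k + 1 + j = k + (j + 1) := by ring
    rw [h1]
    congr 1
    unfold wt
    rw [Nat.add_sub_cancel, ← RCLike.ofReal_mul, ← Real.exp_add]
    congr 2
    ring

theorem norm_pow (j : ℕ) (x : X) : ‖(T ^ j) x‖ ≤ Real.exp (D.L j) * ‖x‖ := by
  obtain ⟨y, hy, hy'⟩ := Q.solid j (fun k => Real.exp (D.L (k + j) - D.L k)) (Real.exp (D.L j))
    (Real.exp_pos _).le (fun k => by
      rw [abs_of_pos (Real.exp_pos _)]
      apply Real.exp_le_exp.2
      have := D.L_add k j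
      linarith) x
  have : (T ^ j) x = y := by
    apply Q.ext
    intro k
    rw [coord_pow Q D T hT, hy]
  rw [this]
  exact hy'

theorem pow_span (v : X) (hv : v ∈ Submodule.span 𝕂 (Set.range Q.e)) :
    ∃ J, ∀ j, J ≤ j → (T ^ j) v = 0 := by
  induction hv using Submodule.span_induction with
  | mem x hx =>
    obtain ⟨n, rfl⟩ := hx
    refine ⟨n + 1, fun j hj => ?_⟩
    apply Q.ext
    intro k
    rw [coord_pow Q D T hT, Q.coord_e, if_neg (by omega), mul_zero, map_zero]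
  | zero => exact ⟨0, fun j _ => map_zero _⟩
  | add x y _ _ hx hy =>
    obtain ⟨J, hJ⟩ := hx
    obtain ⟨J', hJ'⟩ := hy
    refine ⟨max J J', fun j hj => ?_⟩
    rw [map_add, hJ j (le_trans (le_max_left _ _) hj), hJ' j (le_trans (le_max_right _ _) hj),
      add_zero]
  | smul a x _ hx =>
    obtain ⟨J, hJ⟩ := hx
    exact ⟨J, fun j hj => by rw [map_smul, hJ j hj, smul_zero]⟩

/-- not `μ`-distributionally chaotic -/
theorem not_chaotic (h0 : 0 < lam) (hl : lam ≤ 1) (mu : ℝ) (hm0 : 0 < mu) (hm1 : mu < lam) :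
    ¬ DistChaotic mu T := by
  rintro ⟨S, hS, σ, hσ, hscr⟩
  obtain ⟨x, hx, y, hy, hxy⟩ : ∃ x ∈ S, ∃ y ∈ S, x ≠ y := by
    by_contra hc
    push Not at hc
    exact hS (Set.Subsingleton.countable fun x hx y hy => hc x hx y hy)
  have h1 := (hscr x hx y hy hxy).1
  obtain ⟨v, hv, hv'⟩ := Metric.mem_closure_iff.1 (Q.dense (x - y)) (σ / Real.exp 1)
    (by positivity)
  obtain ⟨J, hJ⟩ := pow_span Q D T hT v hv
  refine D.dens_GG mu h0 hm0 hm1 hl J (ldens_zero_mono _ ?_ h1)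
  rintro j ⟨hj1, hj2⟩
  have hj1' : D.L j ≤ 1 := hj1
  change ‖(T ^ j) x - (T ^ j) y‖ < σ
  have e1 : (T ^ j) x - (T ^ j) y = (T ^ j) ((x - y) - v) := by
    rw [map_sub (T ^ j) (x - y) v, hJ j hj2, sub_zero, map_sub]
  rw [e1]
  refine lt_of_le_of_lt (norm_pow Q D T hT j _) ?_
  rw [dist_eq_norm] at hv'
  calc Real.exp (D.L j) * ‖x - y - v‖ ≤ Real.exp 1 * ‖x - y - v‖ := by
        gcongr
    _ < Real.exp 1 * (σ / Real.exp 1) := by
        apply mul_lt_mul_of_pos_left hv' (Real.exp_pos _)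
    _ = σ := by field_simp

omit hT in
open scoped Classical in
/-- the coefficients of the irregular vector -/
noncomputable def al (k : ℕ) : ℝ := if k ∈ D.SS then k * Real.exp (-D.L k) else 0

omit hT in
theorem al_nonneg (k : ℕ) : 0 ≤ al D k := by
  unfold al
  split_ifs
  · positivity
  · exact le_rfl

omit hT in
theorem SS_pos {k : ℕ} (hk : k ∈ D.SS) : 0 < k := by
  obtain ⟨n, h1, -⟩ := hk
  have h2 := D.Mz_le_W n
  have h3 := Nat.mul_pos (D.M_pos n) (D.z_pos n)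
  omega

omit hT in
theorem al_le (k : ℕ) : al D k ≤ 1 / (k : ℝ) ^ 2 := by
  unfold al
  split_ifs with h
  · have h1 := D.L_SS h
    have h2 : (1 : ℝ) ≤ k := by exact_mod_cast SS_pos D h
    have h3 : (0 : ℝ) < k := by linarith
    rw [Real.exp_neg, ← div_eq_mul_inv, div_le_div_iff₀ (Real.exp_pos _) (by positivity), one_mul]
    calc (k : ℝ) * (k : ℝ) ^ 2 = (k : ℝ) ^ 3 := by ring
      _ ≤ (k : ℝ) ^ 6 := pow_le_pow_right₀ h2 (by norm_num)
      _ ≤ _ := h1
  · positivity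

omit hT in
theorem al_summable : Summable (al D) :=
  Summable.of_nonneg_of_le (al_nonneg D) (al_le D)
    (Real.summable_one_div_nat_pow.2 (by norm_num))

variable [CompleteSpace X]

omit hT in
/-- the irregular vector -/
theorem exists_x : ∃ x : X, ∀ k, Q.coord k x = (al D k : 𝕂) := by
  have hs : Summable fun k => (al D k : 𝕂) • Q.e k := by
    refine Summable.of_norm_bounded (al_summable D) fun k => ?_
    rw [norm_smul, RCLike.norm_ofReal, abs_of_nonneg (al_nonneg D k)]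
    exact mul_le_of_le_one_right (al_nonneg D k) (Q.norm_e k)
  refine ⟨∑' k, (al D k : 𝕂) • Q.e k, fun k => ?_⟩
  rw [(Q.coord k).map_tsum hs, tsum_eq_single k]
  · rw [map_smul, Q.coord_e]; simp
  · intro n hn
    rw [map_smul, Q.coord_e, if_neg (fun h => hn h.symm), smul_zero]

omit hT in
theorem l1_bound (y : X) (b : ℕ → ℝ) (hb : Summable b) (h : ∀ k, ‖Q.coord k y‖ ≤ b k) :
    ‖y‖ ≤ ∑' k, b k := by
  have h1 : ∀ k, ‖(Q.coord k y) • Q.e k‖ ≤ b k := fun k => by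
    rw [norm_smul]
    exact (mul_le_of_le_one_right (norm_nonneg _) (Q.norm_e k)).trans (h k)
  have hs : Summable fun k => (Q.coord k y) • Q.e k := Summable.of_norm_bounded hb h1
  have hy : y = ∑' k, (Q.coord k y) • Q.e k := by
    apply Q.ext
    intro k
    rw [(Q.coord k).map_tsum hs, tsum_eq_single k]
    · rw [map_smul, Q.coord_e]; simp
    · intro n hn
      rw [map_smul, Q.coord_e, if_neg (fun h => hn h.symm), smul_zero]
  rw [hy]
  exact tsum_of_norm_bounded hb.hasSum h1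

variable (x : X) (hx : ∀ k, Q.coord k x = (al D k : 𝕂))

include hx

omit [CompleteSpace X] in
theorem big {j : ℕ} (hj : j ∈ D.SS) : (j : ℝ) ≤ ‖(T ^ j) x‖ := by
  have h1 := Q.coord_le 0 ((T ^ j) x)
  rw [coord_pow Q D T hT, hx, zero_add, D.L_zero, sub_zero, norm_mul, RCLike.norm_ofReal,
    RCLike.norm_ofReal, abs_of_pos (Real.exp_pos _), abs_of_nonneg (al_nonneg D j)] at h1
  have h2 : Real.exp (D.L j) * al D j = j := by
    unfold al
    rw [if_pos hj, mul_left_comm, ← Real.exp_add]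
    simp
  rwa [h2] at h1

theorem tiny (h0 : 0 < lam) (hl : lam ≤ 1) (n j : ℕ) (hj1 : D.z n < j)
    (hj2 : j ≤ D.M n * D.z n) :
    ‖(T ^ j) x‖ ≤ (∑' k : ℕ, 1 / ((k + 1 : ℕ) : ℝ) ^ 2) / D.M n := by
  have hsum : Summable fun k : ℕ => 1 / ((k + 1 : ℕ) : ℝ) ^ 2 :=
    (summable_nat_add_iff 1).2 (Real.summable_one_div_nat_pow.2 (by norm_num))
  have hM := D.MR_pos n
  rw [div_eq_mul_inv, ← tsum_mul_right]
  refine l1_bound Q _ _ (hsum.mul_right _) fun k => ?_
  rw [coord_pow Q D T hT, hx, norm_mul, RCLike.norm_ofReal,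
    RCLike.norm_ofReal, abs_of_pos (Real.exp_pos _), abs_of_nonneg (al_nonneg D _)]
  by_cases h : k + j ∈ D.SS
  · have h1 : D.W n ≤ k + j := D.SS_gap h0 hl h (by omega)
    have h2 : D.M n ≤ k + j := by
      have h3 := D.Mz_le_W n
      have h4 : D.M n ≤ D.M n * D.z n := Nat.le_mul_of_pos_right _ (D.z_pos n)
      omega
    have h3 : (D.M n : ℝ) ≤ ((k + j : ℕ) : ℝ) := by exact_mod_cast h2
    have h4 : ((k + 1 : ℕ) : ℝ) ≤ ((k + j : ℕ) : ℝ) := by
      have : k + 1 ≤ k + j := by omega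
      exact_mod_cast this
    have h5 : (1 : ℝ) ≤ ((k + 1 : ℕ) : ℝ) := by
      have : 1 ≤ k + 1 := by omega
      exact_mod_cast this
    set K : ℝ := ((k + j : ℕ) : ℝ) with hK
    have hK1 : 1 ≤ K := h5.trans h4
    have hK0 : 0 < K := by linarith
    have h6 : Real.exp (D.L j) ≤ D.M n := by
      have h7 := D.P4 n
      have h8 : (D.M n : ℝ) = 2 ^ D.m n := by unfold Dat.M; push_cast; rfl
      rw [h8]
      exact (Real.exp_le_exp.2 (D.L_small n j hj2)).trans h7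
    have h7 := D.L_SS h
    have h8 := D.L_add k j
    unfold al
    rw [if_pos h]
    rw [← hK] at h7 ⊢
    have e1 : Real.exp (D.L (k + j) - D.L k) * (K * Real.exp (-D.L (k + j)))
        = K * Real.exp (-D.L k) := by
      rw [mul_left_comm, ← Real.exp_add]
      congr 2
      ring
    have e2 : Real.exp (-D.L k) ≤ D.M n / K ^ 6 := by
      rw [le_div_iff₀ (by positivity)]
      calc Real.exp (-D.L k) * K ^ 6 ≤ Real.exp (-D.L k) * Real.exp (D.L (k + j)) := by gcongr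
        _ = Real.exp (D.L (k + j) - D.L k) := by rw [← Real.exp_add]; congr 1; ring
        _ ≤ Real.exp (D.L j) := Real.exp_le_exp.2 (by linarith)
        _ ≤ D.M n := h6
    rw [e1]
    calc K * Real.exp (-D.L k) ≤ K * (D.M n / K ^ 6) := by gcongr
      _ = D.M n / K ^ 5 := by field_simp
      _ ≤ 1 / ((k + 1 : ℕ) : ℝ) ^ 2 * (D.M n : ℝ)⁻¹ := by
        rw [one_div, ← mul_inv, ← one_div, div_le_div_iff₀ (by positivity) (by positivity),
          one_mul]
        calc (D.M n : ℝ) * (((k + 1 : ℕ) : ℝ) ^ 2 * D.M n)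
            ≤ K * (K ^ 2 * K) := by gcongr
          _ = K ^ 4 := by ring
          _ ≤ K ^ 5 := pow_le_pow_right₀ hK1 (by norm_num)
  · unfold al
    rw [if_neg h, mul_zero]
    positivity

theorem chaos_vec (h0 : 0 < lam) (hl : lam ≤ 1) (v : X)
    (hv : v ∈ Submodule.span 𝕂 (Set.range Q.e)) (β : 𝕂) (hβ : β ≠ 0) :
    ldens (1 / lam) {j | ‖(T ^ j) (v + β • x)‖ < 1} = 0 ∧
    ∀ ε : ℝ, 0 < ε → ldens (1 / lam) {j | ε < ‖(T ^ j) (v + β • x)‖} = 0 := by
  obtain ⟨J, hJ⟩ := pow_span Q D T hT v hv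
  have hβ0 : 0 < ‖β‖ := norm_pos_iff.2 hβ
  have hj : ∀ j, J ≤ j → ‖(T ^ j) (v + β • x)‖ = ‖β‖ * ‖(T ^ j) x‖ := by
    intro j h
    rw [map_add, hJ j h, zero_add, map_smul, norm_smul]
  constructor
  · refine ldens_zero_mono _ ?_ (D.large h0 (max J (⌈1 / ‖β‖⌉₊)))
    intro j h
    by_contra hc
    simp only [Set.mem_union, Set.mem_compl_iff, Set.mem_ofPred_eq, not_or, not_not, not_lt] at hc
    obtain ⟨h1, h2⟩ := hc
    have h3 := hj j (le_trans (le_max_left _ _) h2)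
    have h4 := big Q D T hT x hx h1
    have h5 : 1 / ‖β‖ ≤ j := (Nat.le_ceil _).trans (by
      exact_mod_cast le_trans (le_max_right _ _) h2)
    have h6 : ‖(T ^ j) (v + β • x)‖ < 1 := h
    rw [h3] at h6
    rw [div_le_iff₀ hβ0] at h5
    nlinarith
  · intro ε hε
    refine D.small h0 _ ?_
    set C := ∑' k : ℕ, 1 / ((k + 1 : ℕ) : ℝ) ^ 2 with hC
    filter_upwards [D.z_tendsto.eventually_ge_atTop (J : ℝ),
      (D.M_tendsto h0).eventually_ge_atTop (‖β‖ * C / ε)] with n hn1 hn2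
    intro j hj1 hj2
    by_contra hc
    push Not at hc
    have h1 : J ≤ D.z n := by exact_mod_cast hn1
    have h2 := hj j (by omega)
    have h3 := tiny Q D T hT x hx h0 hl n j hc hj2
    have h4 : ε < ‖(T ^ j) (v + β • x)‖ := hj1
    rw [h2] at h4
    have hM := D.MR_pos n
    rw [div_le_iff₀ hε] at hn2
    rw [← hC] at h3
    have h5 : ‖β‖ * ‖(T ^ j) x‖ ≤ ‖β‖ * (C / D.M n) := mul_le_mul_of_nonneg_left h3 hβ0.le
    have h6 : ‖β‖ * (C / D.M n) ≤ ε := by
      rw [← mul_div_assoc, div_le_iff₀ hM]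
      linarith
    linarith

omit [CompleteSpace X] in
theorem x_ne (h0 : 0 < lam) (hl : lam ≤ 1) : x ≠ 0 := by
  intro h
  have h1 : D.W 0 ∈ D.SS := ⟨0, le_rfl, by have := D.W_le h0 hl 0; omega⟩
  have h2 := hx (D.W 0)
  rw [h, map_zero] at h2
  have h3 : al D (D.W 0) = 0 := by exact_mod_cast h2.symm
  unfold al at h3
  rw [if_pos h1] at h3
  have h4 : (0 : ℝ) < D.W 0 := by exact_mod_cast SS_pos D h1
  have := mul_pos h4 (Real.exp_pos (-D.L (D.W 0)))
  linarith

theorem dense_chaos (h0 : 0 < lam) (hl : lam ≤ 1) : DenselyDistChaotic lam T := by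
  -- a dense sequence
  obtain ⟨t, ht1, ht2, ht3⟩ := (((Set.countable_range Q.e).isSeparable).span
    (R := 𝕂)).exists_countable_dense_subset
  have htd : Dense t := by
    intro y
    have h1 := closure_mono ht3 (Q.dense y)
    rwa [closure_closure] at h1
  have hne : t.Nonempty := htd.nonempty
  obtain ⟨y, hy⟩ := ht2.exists_eq_range hne
  have hyspan : ∀ i, y i ∈ Submodule.span 𝕂 (Set.range Q.e) := fun i => ht1 (hy ▸ ⟨i, rfl⟩)
  -- the scrambled set
  let F : ℕ ⊕ Set.Ioo (1 : ℝ) 2 → X := Sum.elim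
    (fun i => y (Nat.unpair i).1 + ((1 / ((i : ℝ) + 2) : ℝ) : 𝕂) • x) (fun a => ((a : ℝ) : 𝕂) • x)
  have hhalf : ∀ i : ℕ, 1 / ((i : ℝ) + 2) ≤ 1 / 2 := by
    intro i
    apply one_div_le_one_div_of_le (by norm_num)
    have : (0 : ℝ) ≤ i := Nat.cast_nonneg i
    linarith
  have hF : ∀ p p', F p ≠ F p' → ∃ v ∈ Submodule.span 𝕂 (Set.range Q.e), ∃ β : 𝕂, β ≠ 0 ∧
      F p - F p' = v + β • x := by
    rintro (i | a) (i' | a') hne
    · refine ⟨y (Nat.unpair i).1 - y (Nat.unpair i').1, sub_mem (hyspan _) (hyspan _),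
        ((1 / ((i : ℝ) + 2) - 1 / ((i' : ℝ) + 2) : ℝ) : 𝕂), ?_, ?_⟩
      · have hii : i ≠ i' := fun h => hne (by rw [h])
        intro h
        have h1 : 1 / ((i : ℝ) + 2) - 1 / ((i' : ℝ) + 2) = 0 := by exact_mod_cast h
        apply hii
        have h2 : ((i : ℝ) + 2) = ((i' : ℝ) + 2) := by
          have h3 : 1 / ((i : ℝ) + 2) = 1 / ((i' : ℝ) + 2) := by linarith
          rw [one_div, one_div] at h3
          exact inv_injective h3
        exact_mod_cast (add_right_cancel h2)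
      · simp only [F, Sum.elim_inl]
        rw [RCLike.ofReal_sub, sub_smul]
        abel
    · refine ⟨y (Nat.unpair i).1, hyspan _, ((1 / ((i : ℝ) + 2) - a' : ℝ) : 𝕂), ?_, ?_⟩
      · intro h
        have h1 : 1 / ((i : ℝ) + 2) - a' = 0 := by exact_mod_cast h
        have := hhalf i
        have := a'.2.1
        linarith
      · simp only [F, Sum.elim_inl, Sum.elim_inr]
        rw [RCLike.ofReal_sub, sub_smul]
        abel
    · refine ⟨-y (Nat.unpair i').1, neg_mem (hyspan _), ((a - 1 / ((i' : ℝ) + 2) : ℝ) : 𝕂), ?_, ?_⟩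
      · intro h
        have h1 : (a : ℝ) - 1 / ((i' : ℝ) + 2) = 0 := by exact_mod_cast h
        have := hhalf i'
        have := a.2.1
        linarith
      · simp only [F, Sum.elim_inl, Sum.elim_inr]
        rw [RCLike.ofReal_sub, sub_smul]
        abel
    · refine ⟨0, zero_mem _, ((a - a' : ℝ) : 𝕂), ?_, ?_⟩
      · intro h
        have h1 : (a : ℝ) - a' = 0 := by exact_mod_cast h
        apply hne
        have : a = a' := Subtype.ext (by linarith)
        rw [this]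
      · simp only [F, Sum.elim_inr]
        rw [RCLike.ofReal_sub, sub_smul, zero_add]
  refine ⟨Set.range F, ?_, ?_, 1, one_pos, ?_⟩
  · intro hc
    have h1 : (Set.range fun a : Set.Ioo (1 : ℝ) 2 => ((a : ℝ) : 𝕂) • x).Countable := by
      refine hc.mono ?_
      rintro _ ⟨a, rfl⟩
      exact ⟨Sum.inr a, rfl⟩
    have hinj : Function.Injective fun a : Set.Ioo (1 : ℝ) 2 => ((a : ℝ) : 𝕂) • x := by
      intro a a' h
      have h2 : ((a : ℝ) : 𝕂) • x = ((a' : ℝ) : 𝕂) • x := h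
      have h3 := smul_left_injective 𝕂 (x_ne Q D T hT x hx h0 hl) h2
      exact Subtype.ext (by exact_mod_cast h3)
    have h2 : Countable (Set.Ioo (1 : ℝ) 2) := by
      have := Set.countable_coe_iff.2 h1
      exact (Equiv.ofInjective _ hinj).countable_iff.2 this
    have h3 := Set.countable_coe_iff.1 h2
    exact (Cardinal.Real.Ioo_countable_iff.1 h3).not_gt (by norm_num)
  · rw [Metric.dense_iff]
    intro u r hr
    obtain ⟨w, hw, hw'⟩ := Metric.dense_iff.1 htd u (r / 2) (by positivity)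
    rw [hy] at hw'
    obtain ⟨i0, rfl⟩ := hw'
    obtain ⟨k, hk⟩ := exists_nat_gt (2 * ‖x‖ / r)
    refine ⟨F (Sum.inl (Nat.pair i0 k)), ?_, ⟨_, rfl⟩⟩
    simp only [F, Sum.elim_inl, Nat.unpair_pair]
    rw [Metric.mem_ball] at hw ⊢
    have h1 : k ≤ Nat.pair i0 k := Nat.right_le_pair _ _
    have h2 : (k : ℝ) ≤ (Nat.pair i0 k : ℝ) := by exact_mod_cast h1
    have h3 : ‖((1 / ((Nat.pair i0 k : ℝ) + 2) : ℝ) : 𝕂) • x‖ < r / 2 := by
      rw [norm_smul, RCLike.norm_ofReal, abs_of_nonneg (by positivity), one_div,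
        inv_mul_lt_iff₀ (by positivity)]
      rw [div_lt_iff₀ hr] at hk
      nlinarith [norm_nonneg x]
    calc dist (y i0 + ((1 / ((Nat.pair i0 k : ℝ) + 2) : ℝ) : 𝕂) • x) u
        ≤ dist (y i0 + ((1 / ((Nat.pair i0 k : ℝ) + 2) : ℝ) : 𝕂) • x) (y i0) + dist (y i0) u :=
          dist_triangle _ _ _
      _ < r / 2 + r / 2 := by
          refine add_lt_add ?_ hw
          rw [dist_eq_norm, add_sub_cancel_left]
          exact h3
      _ = r := by ring
  · rintro _ ⟨p, rfl⟩ _ ⟨p', rfl⟩ hne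
    obtain ⟨v, hv, β, hβ, h⟩ := hF p p' hne
    have h1 := chaos_vec Q D T hT x hx h0 hl v hv β hβ
    simp only [← map_sub, h]
    exact h1

omit hT hx in
/-- the abstract form of the main result -/
theorem abstract_main (h0 : 0 < lam) (hl : lam ≤ 1) : ∃ (ω : ℕ → ℝ) (T : X →L[𝕂] X),
    (∀ n, 0 < ω n) ∧ (∀ n, ω n ≤ Real.exp 1) ∧ IsShift Q.e ω T ∧ DenselyDistChaotic lam T ∧
      ∀ mu, 0 < mu → mu < lam → ¬ DistChaotic mu T := by
  obtain ⟨D⟩ := exists_dat lam h0 hl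
  obtain ⟨T, hT⟩ := exists_T Q D
  obtain ⟨x, hx⟩ := exists_x Q D
  exact ⟨wt D, T, wt_pos D, wt_le D, isShift Q D T hT, dense_chaos Q D T hT x hx h0 hl,
    fun mu hm0 hm1 => not_chaotic Q D T hT h0 hl mu hm0 hm1⟩

end main

end Pool.Agent.R82.DC
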